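import Pool.Agent.Lib.MP_1a91b9_ntT.Rq.Defs

/-!
# S10-ACT: the action of the automorphisms on the values of `E₁` at torsion points

`Rel τ u w`: the point `w` of `ℂ / Λ` corresponds to the image under `τ` of the point `u` of the
elliptic curve. The addition formulas give additivity; for torsion points of odd order the difference
`τ (ev u) - ev w` is additive, hence zero.
-/

set_option autoImplicit false

namespace Pool.Agent.Lib.MP_1a91b9_ntT.Rq

open NumberField S3

noncomputable section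

/-- `w` corresponds to the image of `u` under `τ`. -/
def Rel (τ : ℂ ≃+* ℂ) (u w : ℂ) : Prop :=
  (u ∈ PP.lattice ∧ w ∈ PP.lattice) ∨
    (u ∉ PP.lattice ∧ w ∉ PP.lattice ∧ X w = τ (X u) ∧ Y w = τ (Y u))

/-- Not a point of order two. -/
def Good (z : ℂ) : Prop := z ∈ PP.lattice ∨ 2 * z ∉ PP.lattice

theorem X_neg (z : ℂ) : X (-z) = X z := by rw [X, X, PeriodPair.weierstrassP_neg]

theorem Y_neg (z : ℂ) : Y (-z) = -Y z := by
  rw [Y, Y, PeriodPair.derivWeierstrassP_neg, neg_div]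

theorem X_zt (z : ℂ) : X (zt * z) = zt * X z := by rw [X, X, P_zt, mul_div_assoc]

theorem Y_zt (z : ℂ) : Y (zt * z) = Y z := by rw [Y, Y, Q_zt]

theorem Y_add {l : ℂ} (hl : l ∈ PP.lattice) (z : ℂ) : Y (z + l) = Y z := by rw [Y, Y, Q_add hl]

theorem ev_add {l : ℂ} (hl : l ∈ PP.lattice) (z : ℂ) : ev (z + l) = ev z := by
  rw [ev, ev, E1_add hl]

theorem ev_neg (z : ℂ) : ev (-z) = -ev z := by rw [ev, ev, E1_neg, neg_div]

theorem ev_coe {l : ℂ} (hl : l ∈ PP.lattice) : ev l = 0 := by rw [ev, E1_coe hl, zero_div]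

theorem ev_zt (z : ℂ) : ev (zt * z) = zt ^ 2 * ev z := by rw [ev, ev, E1_zt, mul_div_assoc]

theorem Y_ne {z : ℂ} (hz : 2 * z ∉ PP.lattice) : Y z ≠ 0 :=
  div_ne_zero (Per.Q_ne hz) (pow_ne_zero 3 Om_ne_zero)

theorem two_of_Y {z : ℂ} (h : Y z ≠ 0) : 2 * z ∉ PP.lattice := by
  intro hz
  apply h
  rw [Y, Q_half hz, zero_div]

/-- Uniqueness. -/
theorem uniq {w w' : ℂ} (hw : 2 * w ∉ PP.lattice) (hw' : w' ∉ PP.lattice) (hX : X w' = X w)
    (hY : Y w' = Y w) : w' - w ∈ PP.lattice := by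
  have hP : PP.weierstrassP w' = PP.weierstrassP w := by
    rw [X, X] at hX
    exact (div_left_inj' (pow_ne_zero 2 Om_ne_zero)).1 hX
  rcases Per.P_inj hw hw' hP with h | h
  · exact h
  · exfalso
    have e : w' = -w + (w' + w) := by ring
    have h1 : Y w' = -Y w := by rw [e, Y_add h, Y_neg]
    rw [h1] at hY
    have h2 : 2 * Y w = 0 := by linear_combination -hY
    exact Y_ne hw (by simpa using h2)

/-- Opposite points. -/
theorem uniq_neg {w w' : ℂ} (hw : 2 * w ∉ PP.lattice) (hw' : w' ∉ PP.lattice) (hX : X w' = X w)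
    (hY : Y w' = -Y w) : w' + w ∈ PP.lattice := by
  have h2 : 2 * -w ∉ PP.lattice := by
    intro h
    apply hw
    have e : 2 * w = -(2 * -w) := by ring
    rw [e]
    exact neg_mem h
  have h := uniq h2 hw' (by rw [hX, X_neg]) (by rw [hY, Y_neg])
  rwa [sub_neg_eq_add] at h

theorem rel_exists (τ : ℂ ≃+* ℂ) {u : ℂ} (hu : u ∉ PP.lattice) : ∃ w, Rel τ u w := by
  obtain ⟨w, hw, hP⟩ := Per.P_surj (τ (X u) * Om ^ 2)
  have hX : X w = τ (X u) := by
    rw [X, hP, mul_div_cancel_right₀ _ (pow_ne_zero 2 Om_ne_zero)]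
  have h1 : Y w ^ 2 = τ (Y u) ^ 2 := by
    rw [Y_sq hw, hX, ← map_pow τ (Y u), Y_sq hu]
    simp only [map_add, map_mul, map_pow, map_one, map_ofNat]
  rcases sq_eq_sq_iff_eq_or_eq_neg.1 h1 with h | h
  · exact ⟨w, Or.inr ⟨hu, hw, hX, h⟩⟩
  · refine ⟨-w, Or.inr ⟨hu, fun hn => hw ?_, by rw [X_neg, hX], by rw [Y_neg, h, neg_neg]⟩⟩
    have := neg_mem hn
    rwa [neg_neg] at this

theorem rel_period {τ : ℂ ≃+* ℂ} {u w l l' : ℂ} (h : Rel τ u w) (hl : l ∈ PP.lattice)
    (hl' : l' ∈ PP.lattice) : Rel τ (u + l) (w + l') := by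
  rcases h with ⟨h1, h2⟩ | ⟨h1, h2, h3, h4⟩
  · exact Or.inl ⟨add_mem h1 hl, add_mem h2 hl'⟩
  · refine Or.inr ⟨fun h => h1 ((add_mem_iff hl).1 h), fun h => h2 ((add_mem_iff hl').1 h), ?_, ?_⟩
    · rw [X_add hl', X_add hl, h3]
    · rw [Y_add hl', Y_add hl, h4]

theorem rel_neg {τ : ℂ ≃+* ℂ} {u w : ℂ} (h : Rel τ u w) : Rel τ (-u) (-w) := by
  rcases h with ⟨h1, h2⟩ | ⟨h1, h2, h3, h4⟩
  · exact Or.inl ⟨neg_mem h1, neg_mem h2⟩
  · refine Or.inr ⟨fun h => h1 (neg_mem_iff.1 h), fun h => h2 (neg_mem_iff.1 h), ?_, ?_⟩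
    · rw [X_neg, X_neg, h3]
    · rw [Y_neg, Y_neg, h4, map_neg]

theorem rel_zt {τ : ℂ ≃+* ℂ} (hτ : Fix τ) {u w : ℂ} (h : Rel τ u w) : Rel τ (zt * u) (zt * w) := by
  rcases h with ⟨h1, h2⟩ | ⟨h1, h2, h3, h4⟩
  · exact Or.inl ⟨zt_mul_mem.2 h1, zt_mul_mem.2 h2⟩
  · refine Or.inr ⟨fun h => h1 (zt_mul_mem.1 h), fun h => h2 (zt_mul_mem.1 h), ?_, ?_⟩
    · rw [X_zt, X_zt, h3, map_mul, hτ]
    · rw [Y_zt, Y_zt, h4]

/-! ### The addition formulas -/

theorem slope {u v : ℂ} (hu : 2 * u ∉ PP.lattice) (hv : 2 * v ∉ PP.lattice)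
    (h1 : u - v ∉ PP.lattice) (h2 : u + v ∉ PP.lattice) :
    (X u - X v) * (2 * (ev (u + v) - ev u - ev v)) = Y u - Y v := by
  have a1 := sig hv (notMem_of_two_mul hu) h1 h2
  have a2 := sig hu (notMem_of_two_mul hv)
    (fun h => h1 (by have := neg_mem h; rwa [neg_sub] at this)) (by rwa [add_comm])
  have e1 : E1 (v - u) = -E1 (u - v) := by rw [← E1_neg, neg_sub]
  rw [e1, add_comm v u] at a2
  have hO := Om_ne_zero
  rw [X, X, Y, Y, ev, ev, ev]
  field_simp
  linear_combination a2 - a1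

theorem sq {u v : ℂ} (hu : u ∉ PP.lattice) (hv : v ∉ PP.lattice) (huv : u + v ∉ PP.lattice) :
    (ev (u + v) - ev u - ev v) ^ 2 = X u + X v + X (u + v) := by
  have h := add_sq hu hv huv
  have hO := Om_ne_zero
  rw [X, X, X, ev, ev, ev]
  field_simp
  linear_combination h

theorem third {u v : ℂ} (hu : 2 * u ∉ PP.lattice) (hv : v ∉ PP.lattice)
    (huv : 2 * (u + v) ∉ PP.lattice) :
    Y (u + v) = -Y u + 2 * (ev (u + v) - ev u - ev v) * (X u - X (u + v)) := by
  by_cases h : 2 * u + v ∈ PP.lattice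
  · have e : u + v = -u + (2 * u + v) := by ring
    have h1 : X (u + v) = X u := by rw [e, X_add h, X_neg]
    have h2 : Y (u + v) = -Y u := by rw [e, Y_add h, Y_neg]
    rw [h1, h2, sub_self, mul_zero, add_zero]
  · have h3 : 2 * -(u + v) ∉ PP.lattice := by
      intro hh
      apply huv
      have e : 2 * (u + v) = -(2 * -(u + v)) := by ring
      rw [e]
      exact neg_mem hh
    have h4 : u - -(u + v) ∉ PP.lattice := by
      have e : u - -(u + v) = 2 * u + v := by ring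
      rwa [e]
    have h5 : u + -(u + v) ∉ PP.lattice := by
      have e : u + -(u + v) = -v := by ring
      rw [e]
      exact fun hh => hv (neg_mem_iff.1 hh)
    have h6 := slope hu h3 h4 h5
    have e : u + -(u + v) = -v := by ring
    rw [e, X_neg, Y_neg, ev_neg, ev_neg] at h6
    linear_combination -h6

theorem dupl {u : ℂ} (hu : 2 * u ∉ PP.lattice) : (ev (2 * u) - 2 * ev u) * Y u = 3 * X u ^ 2 :=
  slope_eq hu

/-- Additivity. -/
theorem rel_add {τ : ℂ ≃+* ℂ} {u w u' w' : ℂ} (h : Rel τ u w) (h' : Rel τ u' w') (hg : Good u)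
    (hg' : Good u') (hgs : Good (u + u')) :
    Rel τ (u + u') (w + w') ∧
      τ (ev (u + u') - ev u - ev u') = ev (w + w') - ev w - ev w' := by
  rcases h with ⟨h1, h2⟩ | ⟨h1, h2, h3, h4⟩
  · refine ⟨?_, ?_⟩
    · have := rel_period h' h1 h2
      rwa [add_comm u' u, add_comm w' w] at this
    · rw [add_comm u u', add_comm w w', ev_add h1, ev_add h2, ev_coe h1, ev_coe h2, sub_zero,
        sub_zero, sub_self, sub_self, map_zero]
  rcases h' with ⟨h1', h2'⟩ | ⟨h1', h2', h3', h4'⟩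
  · refine ⟨rel_period (Or.inr ⟨h1, h2, h3, h4⟩) h1' h2', ?_⟩
    rw [ev_add h1', ev_add h2', ev_coe h1', ev_coe h2', sub_zero, sub_zero, sub_self, sub_self,
      map_zero]
  have hu : 2 * u ∉ PP.lattice := hg.resolve_left h1
  have hu' : 2 * u' ∉ PP.lattice := hg'.resolve_left h1'
  have hw : 2 * w ∉ PP.lattice := two_of_Y (by rw [h4]; exact (map_ne_zero τ).2 (Y_ne hu))
  have hw' : 2 * w' ∉ PP.lattice := two_of_Y (by rw [h4']; exact (map_ne_zero τ).2 (Y_ne hu'))
  by_cases hs : u + u' ∈ PP.lattice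
  · have e : u' = -u + (u + u') := by ring
    have a1 : X u' = X u := by rw [e, X_add hs, X_neg]
    have a2 : Y u' = -Y u := by rw [e, Y_add hs, Y_neg]
    have a3 : ev u' = -ev u := by rw [e, ev_add hs, ev_neg]
    have hsw : w' + w ∈ PP.lattice :=
      uniq_neg hw h2' (by rw [h3', a1, h3]) (by rw [h4', a2, map_neg, h4])
    have e' : w' = -w + (w' + w) := by ring
    have a3' : ev w' = -ev w := by
      conv_lhs => rw [e']
      rw [ev_add hsw, ev_neg]
    rw [add_comm w' w] at hsw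
    refine ⟨Or.inl ⟨hs, hsw⟩, ?_⟩
    rw [ev_coe hs, ev_coe hsw, a3, a3']
    simp
  have h2s : 2 * (u + u') ∉ PP.lattice := hgs.resolve_left hs
  have hsw : w + w' ∉ PP.lattice := by
    intro hsw
    have e' : w' = -w + (w + w') := by ring
    have b1 : X w' = X w := by rw [e', X_add hsw, X_neg]
    have b2 : Y w' = -Y w := by rw [e', Y_add hsw, Y_neg]
    have b3 : X u' = X u := τ.injective (by rw [← h3', ← h3, b1])
    have b4 : Y u' = -Y u := τ.injective (by rw [← h4', b2, h4, map_neg])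
    have := uniq_neg hu h1' b3 b4
    rw [add_comm] at this
    exact hs this
  -- the slopes correspond
  have hl : τ (ev (u + u') - ev u - ev u') = ev (w + w') - ev w - ev w' := by
    by_cases hd : u' - u ∈ PP.lattice
    · have e : u' = u + (u' - u) := by ring
      have c1 : X u' = X u := by rw [e, X_add hd]
      have c2 : Y u' = Y u := by rw [e, Y_add hd]
      have c3 : ev u' = ev u := by rw [e, ev_add hd]
      have hdw : w' - w ∈ PP.lattice :=
        uniq hw h2' (by rw [h3', c1, h3]) (by rw [h4', c2, h4])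
      have e' : w' = w + (w' - w) := by ring
      have c3' : ev w' = ev w := by
        conv_lhs => rw [e']
        rw [ev_add hdw]
      have c4 : ev (u + u') = ev (2 * u) := by
        have e2 : u + u' = 2 * u + (u' - u) := by ring
        rw [e2, ev_add hd]
      have c4' : ev (w + w') = ev (2 * w) := by
        have e2 : w + w' = 2 * w + (w' - w) := by ring
        rw [e2, ev_add hdw]
      have d1 := congrArg τ (dupl hu)
      have d2 := dupl hw
      simp only [map_mul, map_pow, map_ofNat] at d1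
      rw [← h4, ← h3] at d1
      rw [c3, c4, c3', c4']
      apply mul_right_cancel₀ (Y_ne hw)
      have e3 : ev (2 * u) - ev u - ev u = ev (2 * u) - 2 * ev u := by ring
      rw [e3, d1]
      linear_combination -d2
    · have hd' : u - u' ∉ PP.lattice := fun hh => hd (by have := neg_mem hh; rwa [neg_sub] at this)
      have hXne : X w ≠ X w' := by
        intro hX
        have hXu : X u = X u' := τ.injective (by rw [← h3, ← h3', hX])
        have hP : PP.weierstrassP u = PP.weierstrassP u' := by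
          rw [X, X] at hXu
          exact (div_left_inj' (pow_ne_zero 2 Om_ne_zero)).1 hXu
        rcases Per.P_inj hu' h1 hP with hh | hh
        · exact hd' hh
        · exact hs hh
      have hdw : w - w' ∉ PP.lattice := by
        intro hh
        apply hXne
        have e' : w = w' + (w - w') := by ring
        conv_lhs => rw [e']
        rw [X_add hh]
      have d1 := congrArg τ (slope hu hu' hd' hs)
      have d2 := slope hw hw' hdw hsw
      rw [map_mul, map_mul, map_sub, map_sub τ (Y u), ← h3, ← h3', ← h4, ← h4', map_ofNat] at d1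
      have d3 : (X w - X w') * (2 * (τ (ev (u + u') - ev u - ev u'))) =
          (X w - X w') * (2 * (ev (w + w') - ev w - ev w')) := by rw [d1, d2]
      have d4 := mul_left_cancel₀ (sub_ne_zero.2 hXne) d3
      exact mul_left_cancel₀ two_ne_zero d4
  have hXs : X (w + w') = τ (X (u + u')) := by
    have d1 := congrArg τ (sq h1 h1' hs)
    have d2 := sq h2 h2' hsw
    rw [map_pow, hl, d2, map_add, map_add, ← h3, ← h3'] at d1
    linear_combination d1
  have h2sw : 2 * (w + w') ∉ PP.lattice := by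
    intro hh
    have d1 : Y (w + w') = 0 := by rw [Y, Q_half hh, zero_div]
    have d2 := Y_sq hsw
    have d3 := congrArg τ (Y_sq hs)
    rw [map_pow] at d3
    simp only [map_add, map_mul, map_pow, map_one, map_ofNat] at d3
    rw [← hXs, ← d2, d1] at d3
    have d4 : τ (Y (u + u')) = 0 := by simpa using d3
    exact Y_ne h2s ((map_eq_zero τ).1 d4)
  refine ⟨Or.inr ⟨hs, hsw, hXs, ?_⟩, hl⟩
  have d1 := congrArg τ (third hu h1' h2s)
  rw [third hw h2' h2sw, ← hl, hXs, h3, h4, d1]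
  simp only [map_add, map_neg, map_mul, map_sub, map_ofNat]

/-! ### Torsion points of odd order -/

theorem good_odd {m : ℕ} (hm : Odd m) {l : ℂ} (hl : l ∈ PP.lattice) : Good (l / m) := by
  obtain ⟨k, rfl⟩ := hm
  have h0 : ((2 * k + 1 : ℕ) : ℂ) ≠ 0 := by exact_mod_cast Nat.succ_ne_zero (2 * k)
  by_cases h : 2 * (l / ((2 * k + 1 : ℕ) : ℂ)) ∈ PP.lattice
  · left
    have h1 : l / ((2 * k + 1 : ℕ) : ℂ) = l - (k : ℂ) * (2 * (l / ((2 * k + 1 : ℕ) : ℂ))) := by
      have h2 : l = ((2 * k + 1 : ℕ) : ℂ) * (l / ((2 * k + 1 : ℕ) : ℂ)) := by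
        field_simp
      have h3 : l = (2 * k + 1) * (l / ((2 * k + 1 : ℕ) : ℂ)) := by
        conv_lhs => rw [h2]
        push_cast
        ring
      linear_combination -h3
    rw [h1]
    exact sub_mem hl (mul_mem (nat_mem k) h)
  · exact Or.inr h

/-- The group of the `l` in the lattice with `Rel τ (l / m) (l w)`. -/
def relSub (τ : ℂ ≃+* ℂ) (m : ℕ) (hm : Odd m) (w : ℂ) : AddSubgroup ℂ where
  carrier := {l | l ∈ PP.lattice ∧ Rel τ (l / m) (l * w)}
  zero_mem' := by
    refine ⟨zero_mem _, Or.inl ⟨?_, ?_⟩⟩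
    · rw [zero_div]
      exact zero_mem _
    · rw [zero_mul]
      exact zero_mem _
  add_mem' := by
    rintro a b ⟨ha, ha'⟩ ⟨hb, hb'⟩
    refine ⟨add_mem ha hb, ?_⟩
    rw [add_div, add_mul]
    refine (rel_add ha' hb' (good_odd hm ha) (good_odd hm hb) ?_).1
    rw [← add_div]
    exact good_odd hm (add_mem ha hb)
  neg_mem' := by
    rintro a ⟨ha, ha'⟩
    refine ⟨neg_mem ha, ?_⟩
    rw [neg_div, neg_mul]
    exact rel_neg ha'

theorem relSub_top {τ : ℂ ≃+* ℂ} (hτ : Fix τ) {m : ℕ} (hm : Odd m) {w : ℂ}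
    (h : Rel τ (1 / m) w) {l : ℂ} (hl : l ∈ PP.lattice) : Rel τ (l / m) (l * w) := by
  have h1 : (1 : ℂ) ∈ relSub τ m hm w := ⟨one_mem, by rwa [one_mul]⟩
  have h2 : zt ∈ relSub τ m hm w := ⟨zt_mem, by
    have := rel_zt hτ h
    rwa [mul_one_div] at this⟩
  obtain ⟨a, b, rfl⟩ := mem_PP.1 hl
  have h3 : (a : ℂ) + b * zt ∈ relSub τ m hm w := by
    have e : (a : ℂ) + b * zt = a • (1 : ℂ) + b • zt := by
      rw [zsmul_eq_mul, zsmul_eq_mul, mul_one]
    rw [e]
    exact add_mem (AddSubgroup.zsmul_mem _ h1 a) (AddSubgroup.zsmul_mem _ h2 b)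
  exact h3.2

/-- The additive defect. -/
def defect {τ : ℂ ≃+* ℂ} (hτ : Fix τ) {m : ℕ} (hm : Odd m) {w : ℂ} (h : Rel τ (1 / m) w) :
    PP.lattice →+ ℂ where
  toFun l := τ (ev ((l : ℂ) / m)) - ev ((l : ℂ) * w)
  map_zero' := by
    have h0 : ((0 : PP.lattice) : ℂ) = 0 := rfl
    rw [h0, zero_div, zero_mul, ev_coe (zero_mem _), map_zero, sub_zero]
  map_add' a b := by
    have e : ((a + b : PP.lattice) : ℂ) = (a : ℂ) + b := rfl
    have h1 := (rel_add (relSub_top hτ hm h a.2) (relSub_top hτ hm h b.2) (good_odd hm a.2)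
      (good_odd hm b.2) (by rw [← add_div]; exact good_odd hm (add_mem a.2 b.2))).2
    rw [← add_div, ← add_mul] at h1
    rw [e]
    rw [map_sub, map_sub] at h1
    linear_combination h1

theorem defect_zero {τ : ℂ ≃+* ℂ} (hτ : Fix τ) {m : ℕ} (hm : Odd m) {w : ℂ}
    (h : Rel τ (1 / m) w) (l : PP.lattice) : τ (ev ((l : ℂ) / m)) = ev ((l : ℂ) * w) := by
  have hm0 : (m : ℂ) ≠ 0 := by
    have := hm.pos
    exact_mod_cast this.ne'
  have h1 : defect hτ hm h (m • l) = m • defect hτ hm h l := map_nsmul _ _ _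
  have h2 : defect hτ hm h (m • l) = 0 := by
    show τ (ev (((m • l : PP.lattice) : ℂ) / m)) - ev (((m • l : PP.lattice) : ℂ) * w) = 0
    have e : ((m • l : PP.lattice) : ℂ) = (m : ℂ) * l := by
      rw [← nsmul_eq_mul]
      rfl
    have e1 : (m : ℂ) * l / m = l := by field_simp
    have hr := relSub_top hτ hm h (mul_mem (nat_mem m) l.2)
    rw [e1] at hr
    rw [e, e1, ev_coe l.2, map_zero]
    rcases hr with ⟨-, hr⟩ | ⟨hr, -⟩
    · rw [ev_coe hr, sub_zero]
    · exact absurd l.2 hr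
  rw [h2, nsmul_eq_mul] at h1
  have h3 : defect hτ hm h l = 0 := (mul_eq_zero.1 h1.symm).resolve_left hm0
  exact sub_eq_zero.1 h3

theorem third_notMem : (1 / 3 : ℂ) ∉ PP.lattice := by
  have h := third_notMem_aux (a := 1) (b := 0) (by omega)
  simpa using h

theorem X_third : X (1 / 3) ^ 3 = -1 := by
  have h2 : 2 * (1 / 3 : ℂ) ∉ PP.lattice := by
    intro h
    apply third_notMem
    have e : (1 / 3 : ℂ) = 1 - 2 * (1 / 3) := by norm_num
    rw [e]
    exact sub_mem one_mem h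
  have h := X_two_mul h2
  have e : 2 * (1 / 3 : ℂ) = -(1 / 3) + 1 := by norm_num
  rw [e, X_add one_mem, X_neg] at h
  have hX : X (1 / 3) ≠ 0 := div_ne_zero P_third_ne_zero (pow_ne_zero 2 Om_ne_zero)
  have h3 : X (1 / 3) * (X (1 / 3) ^ 3 + 1) = 0 := by linear_combination h / 3
  have h4 := (mul_eq_zero.1 h3).resolve_left hX
  linear_combination h4

theorem rel_third {τ : ℂ ≃+* ℂ} (hτ : Fix τ) : Rel τ (1 / 3) (1 / 3) := by
  refine Or.inr ⟨third_notMem, third_notMem, ?_, ?_⟩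
  · have h : (X (1 / 3) + 1) * (X (1 / 3) + zt) * (X (1 / 3) + zt ^ 2) = 0 := by
      have e : (X (1 / 3) + 1) * (X (1 / 3) + zt) * (X (1 / 3) + zt ^ 2) = X (1 / 3) ^ 3 + 1 := by
        linear_combination (X (1 / 3) ^ 2 + X (1 / 3)) * zt_quad +
          (X (1 / 3) + 1) * (zt_cube)
      rw [e, X_third]
      ring
    rcases mul_eq_zero.1 h with h1 | h1
    · rcases mul_eq_zero.1 h1 with h2 | h2
      · have e : X (1 / 3) = -1 := by linear_combination h2
        rw [e, map_neg, map_one]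
      · have e : X (1 / 3) = -zt := by linear_combination h2
        rw [e, map_neg, hτ]
    · have e : X (1 / 3) = -zt ^ 2 := by linear_combination h1
      rw [e, map_neg, map_pow, hτ]
  · have h1 : Y (1 / 3) ^ 2 = (2 * zt + 1) ^ 2 := by
      rw [Y_sq third_notMem, X_third]
      linear_combination -4 * zt_quad
    rcases sq_eq_sq_iff_eq_or_eq_neg.1 h1 with h2 | h2
    · rw [h2, map_add, map_mul, map_one, map_ofNat, hτ]
    · rw [h2, map_neg, map_add, map_mul, map_one, map_ofNat, hτ]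

theorem rel_unique {τ : ℂ ≃+* ℂ} {u w w' : ℂ} (hu : Good u) (h : Rel τ u w) (h' : Rel τ u w') :
    w' - w ∈ PP.lattice := by
  rcases h with ⟨h1, h2⟩ | ⟨h1, h2, h3, h4⟩
  · rcases h' with ⟨_, h2'⟩ | ⟨h1', _⟩
    · exact sub_mem h2' h2
    · exact absurd h1 h1'
  · rcases h' with ⟨h1', _⟩ | ⟨_, h2', h3', h4'⟩
    · exact absurd h1' h1
    · have hw : 2 * w ∉ PP.lattice :=
        two_of_Y (by rw [h4]; exact (map_ne_zero τ).2 (Y_ne (hu.resolve_left h1)))
      exact uniq hw h2' (by rw [h3', h3]) (by rw [h4', h4])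

theorem embK_dvd {M : ℕ} {a : 𝓞 K} (hM : 0 < M) (h : embK (a : K) / M ∈ PP.lattice) :
    (M : 𝓞 K) ∣ a := by
  obtain ⟨y, hy⟩ := mem_PP_iff.1 h
  have hM0 : (M : ℂ) ≠ 0 := by exact_mod_cast hM.ne'
  refine ⟨y, ?_⟩
  apply RingOfIntegers.ext
  apply embK.toRingHom.injective
  show embK (a : K) = embK (((M : 𝓞 K) * y : 𝓞 K) : K)
  have e : (((M : 𝓞 K) * y : 𝓞 K) : K) = (M : K) * (y : K) := by push_cast; rfl
  rw [e, map_mul, map_natCast, hy]
  field_simp

theorem exists_act {τ : ℂ ≃+* ℂ} (hτ : Fix τ) (M : ℕ) (hM : Odd M) (h3 : 3 ∣ M) :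
    ∃ χ : 𝓞 K, (3 : 𝓞 K) ∣ χ - 1 ∧ IsCoprime χ (M : 𝓞 K) ∧ Act τ M χ := by
  have hM0 : (M : ℂ) ≠ 0 := by
    have := hM.pos
    exact_mod_cast this.ne'
  obtain ⟨w, hw⟩ : ∃ w, Rel τ (1 / M) w := by
    by_cases h : (1 / M : ℂ) ∈ PP.lattice
    · exact ⟨0, Or.inl ⟨h, zero_mem _⟩⟩
    · exact rel_exists τ h
  have hMw : (M : ℂ) * w ∈ PP.lattice := by
    have h1 := relSub_top hτ hM hw (nat_mem M)
    rw [div_self hM0] at h1
    rcases h1 with ⟨-, h1⟩ | ⟨h1, -⟩
    · exact h1
    · exact absurd one_mem h1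
  obtain ⟨χ, hχ⟩ := mem_PP_iff.1 hMw
  have hw' : w = embK (χ : K) / M := by
    rw [hχ]
    field_simp
  have hrel : ∀ a : 𝓞 K, Rel τ (embK (a : K) / M) (embK (χ : K) * embK (a : K) / M) := by
    intro a
    have h1 := relSub_top hτ hM hw (embK_mem a)
    rw [hw'] at h1
    have e : embK (a : K) * (embK (χ : K) / M) = embK (χ : K) * embK (a : K) / M := by ring
    rwa [e] at h1
  refine ⟨χ, ?_, ?_, ?_⟩
  · obtain ⟨k, rfl⟩ := h3
    have hk0 : (k : ℂ) ≠ 0 := by
      intro h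
      apply hM0
      push_cast
      rw [h, mul_zero]
    have h1 := hrel (k : 𝓞 K)
    have e1 : embK (((k : 𝓞 K) : 𝓞 K) : K) / ((3 * k : ℕ) : ℂ) = 1 / 3 := by
      have : (((k : 𝓞 K) : 𝓞 K) : K) = (k : K) := by push_cast; rfl
      rw [this, map_natCast]
      push_cast
      field_simp
    have e2 : embK (χ : K) * embK (((k : 𝓞 K) : 𝓞 K) : K) / ((3 * k : ℕ) : ℂ) =
        embK (χ : K) * (1 / 3) := by
      rw [mul_div_assoc, e1]
    rw [e1, e2] at h1
    have hg : Good (1 / 3) := by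
      have := good_odd (m := 3) (by decide) one_mem
      simpa using this
    have h2 := rel_unique hg (rel_third hτ) h1
    refine embK_dvd (M := 3) (by norm_num) ?_
    have e3 : embK ((χ - 1 : 𝓞 K) : K) / ((3 : ℕ) : ℂ) = embK (χ : K) * (1 / 3) - 1 / 3 := by
      have : ((χ - 1 : 𝓞 K) : K) = (χ : K) - 1 := by push_cast; rfl
      rw [this, map_sub, map_one]
      push_cast
      ring
    rw [e3]
    exact h2
  · -- multiplication by `χ` is injective modulo `M`
    have hinj : ∀ a : 𝓞 K, (M : 𝓞 K) ∣ χ * a → (M : 𝓞 K) ∣ a := by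
      rintro a ⟨y, hy⟩
      have h1 : embK (χ : K) * embK (a : K) / M ∈ PP.lattice := by
        have e : embK (χ : K) * embK (a : K) = M * embK (y : K) := by
          have h2 := congrArg (fun x : 𝓞 K => embK (x : K)) hy
          have e1 : ((χ * a : 𝓞 K) : K) = (χ : K) * (a : K) := by push_cast; rfl
          have e2 : (((M : 𝓞 K) * y : 𝓞 K) : K) = (M : K) * (y : K) := by push_cast; rfl
          simp only [e1, e2, map_mul, map_natCast] at h2
          exact h2
        rw [e, mul_div_cancel_left₀ _ hM0]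
        exact embK_mem y
      rcases hrel a with ⟨h2, -⟩ | ⟨-, h2, -⟩
      · exact embK_dvd hM.pos h2
      · exact absurd h1 h2
    have hfin : Finite (𝓞 K ⧸ Ideal.span {(M : 𝓞 K)}) :=
      Ideal.finiteQuotientOfFreeOfNeBot _ (by
        rw [Ne, Ideal.span_singleton_eq_bot]
        intro h
        have : (M : 𝓞 K) ≠ 0 := by
          have := hM.pos
          exact_mod_cast this.ne'
        exact this h)
    have hinj2 : Function.Injective
        (fun x : 𝓞 K ⧸ Ideal.span {(M : 𝓞 K)} => Ideal.Quotient.mk _ χ * x) := by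
      intro x y hxy
      obtain ⟨a, rfl⟩ := Ideal.Quotient.mk_surjective x
      obtain ⟨b, rfl⟩ := Ideal.Quotient.mk_surjective y
      simp only at hxy
      rw [← map_mul, ← map_mul, Ideal.Quotient.eq, Ideal.mem_span_singleton, ← mul_sub] at hxy
      rw [Ideal.Quotient.eq, Ideal.mem_span_singleton]
      exact hinj _ hxy
    obtain ⟨x, hx⟩ := (Finite.injective_iff_surjective.1 hinj2) 1
    obtain ⟨a, rfl⟩ := Ideal.Quotient.mk_surjective x
    simp only at hx
    rw [← map_mul, ← map_one (Ideal.Quotient.mk _), Ideal.Quotient.eq,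
      Ideal.mem_span_singleton] at hx
    obtain ⟨y, hy⟩ := hx
    exact ⟨a, -y, by linear_combination hy⟩
  · intro a
    have h1 := defect_zero hτ hM hw ⟨embK (a : K), embK_mem a⟩
    rw [hw'] at h1
    have e : embK (a : K) * (embK (χ : K) / M) = embK (χ : K) * embK (a : K) / M := by ring
    rw [← e]
    exact h1

end

end Pool.Agent.Lib.MP_1a91b9_ntT.Rq
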