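import Pool.Agent.Lib.MP_1a91b9_ntT.Rq.Dt

/-!
# JOB S10-D1: the discriminant of `F` over `ℚ` and the determinant over `K`

`disc_basis`: for a `ℚ`-basis `B` (indexed by a finite type) of a number field `F`:
`Algebra.discr ℚ B = q ^ 2 * discr F` with `q` rational, not zero: compare with an integral basis
(`NumberField.integralBasis F`, `Algebra.discr_of_matrix_vecMul`/`Algebra.discr_of_matrix_mulVec` with
the change of basis matrix `Module.Basis.toMatrix`, reindexed: `Algebra.discr_reindex`; `NumberField.coe_discr`: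
`(discr F : ℚ) = Algebra.discr ℚ (integralBasis F)`).
`disc_K`: `n = m + 1`. `B : Fin 2 × Fin n → F`, `(0, i) ↦ bb i`, `(1, i) ↦ om • bb i` is the basis
`(basis 1, om of K).smulTower bb` (`Module.Basis.smulTower`; or use
`Algebra.discr` of `smulTower`..). Its discriminant is `det (M) ^ 2` for the matrix `M` of the
conjugates under the `2 n` embeddings `F → ℂ` (`Algebra.discr_eq_det_embeddingsMatrixReindex_pow_two`),
which are the `σ j` and the `conj ∘ σ j` (bijection `Fin 2 × Fin n → (F →ₐ[ℚ] ℂ)`; injective: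
`σ j` sends `om` to `zt` and `conj ∘ σ j` sends it to `conj zt ≠ zt`; `2 n = [F : ℚ]` embeddings).
So up to reindexing `M` is the block matrix `[[A, zt A], [Abar, conj zt Abar]]`, `A = (σ j (bb i))`
(transposed), with determinant `± (conj zt - zt) ^ n * det A * conj (det A)` (subtract `zt` times the
first block of columns from the second: `Matrix.det_fromBlocks_zero₁₂`), of absolute value
`√3 ^ n * ‖dt σ bb‖ ^ 2` (`‖conj zt - zt‖ = 2 |zt.im| = √3`, `Per.zt_im`).
Alternative proof avoiding embeddings: `Algebra.discr ℚ` of a tower basis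
= `(discr ℚ (1, om)) ^ n * Algebra.norm ℚ (Algebra.discr K bb)` (`discr` via the trace matrix, if
Mathlib has the tower formula), `discr ℚ (1, om) = -3`, `Algebra.norm ℚ x = ‖embK x‖ ^ 2` for `x : K`,
and `dt_sq`.
Hence `3 ^ n * ‖dt σ bb‖ ^ 4 = |q ^ 2 * discr F|`, `√3 ^ n * ‖dt σ bb‖ ^ 2 = |q| * √|discr F|`.
-/

set_option autoImplicit false

namespace Pool.Agent.Lib.MP_1a91b9_ntT.Rq

open NumberField

universe u

theorem disc_basis {F : Type u} [Field F] [NumberField F] {ι : Type} [Fintype ι] [DecidableEq ι]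
    (B : Module.Basis ι ℚ F) :
    ∃ q : ℚ, q ≠ 0 ∧ Algebra.discr ℚ B = q ^ 2 * (discr F : ℚ) := by
  let e := (integralBasis F).indexEquiv B
  obtain ⟨b1, hb1⟩ : ∃ b1 : Module.Basis ι ℚ F, b1 = (integralBasis F).reindex e := ⟨_, rfl⟩
  have h1 : Algebra.discr ℚ b1 = (discr F : ℚ) := by
    rw [coe_discr, hb1, Module.Basis.coe_reindex, ← Algebra.discr_reindex ℚ (integralBasis F) e]
  have h2 : Algebra.discr ℚ B = (b1.toMatrix B).det ^ 2 * Algebra.discr ℚ b1 := by
    rw [← Algebra.discr_of_matrix_vecMul, Module.Basis.toMatrix_map_vecMul]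
  refine ⟨(b1.toMatrix B).det, ?_, by rw [h2, h1]⟩
  intro h3
  rw [h3] at h2
  refine Algebra.discr_not_zero_of_basis ℚ B ?_
  rw [h2]
  ring

variable {F : Type u} [Field F] [NumberField F] [Algebra K F]

/-- The trace from `K` to the rational numbers. -/
theorem D1b_trace (x : K) : ((Algebra.trace ℚ K x : ℚ) : ℂ) =
    embK x + (starRingEnd ℂ) (embK x) := by
  classical
  have h := trace_eq_sum_embeddings (K := ℚ) (L := K) ℂ (x := x)
  have hcard : Fintype.card (K →ₐ[ℚ] ℂ) = 2 := by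
    rw [AlgHom.card, S3.finrank_K]
  have huniv : (Finset.univ : Finset (K →ₐ[ℚ] ℂ)) = {embK, S3.embK'} := by
    symm
    apply Finset.eq_univ_of_card
    rw [Finset.card_pair S3.embK_ne, hcard]
  rw [huniv, Finset.sum_pair S3.embK_ne] at h
  exact h

/-- The determinant of the block matrix of the traces. -/
theorem D1b_det {n : ℕ} (A B : Matrix (Fin n) (Fin n) ℂ) (x y : ℂ) :
    (Matrix.fromBlocks (A + B) (x • A + y • B) (x • A + y • B) ((x * x) • A + (y * y) • B)).det =
      (y - x) ^ n * (y - x) ^ n * (A.det * B.det) := by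
  have h1 : Matrix.fromBlocks (A + B) (x • A + y • B) (x • A + y • B)
      ((x * x) • A + (y * y) • B) =
      Matrix.fromBlocks 1 1 (x • (1 : Matrix (Fin n) (Fin n) ℂ)) (y • 1) *
        Matrix.fromBlocks A 0 0 B *
        Matrix.fromBlocks 1 (x • (1 : Matrix (Fin n) (Fin n) ℂ)) 1 (y • 1) := by
    rw [Matrix.fromBlocks_multiply, Matrix.fromBlocks_multiply]
    congr 1
    · simp
    · simp
    · simp
    · simp [smul_smul]
  have h2 : (Matrix.fromBlocks 1 1 (x • (1 : Matrix (Fin n) (Fin n) ℂ)) (y • 1)).det =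
      (y - x) ^ n := by
    rw [Matrix.det_fromBlocks_one₁₁, mul_one, ← sub_smul, Matrix.det_smul, Matrix.det_one,
      mul_one, Fintype.card_fin]
  have h3 : (Matrix.fromBlocks 1 (x • (1 : Matrix (Fin n) (Fin n) ℂ)) 1 (y • 1)).det =
      (y - x) ^ n := by
    rw [Matrix.det_fromBlocks_one₁₁, one_mul, ← sub_smul, Matrix.det_smul, Matrix.det_one,
      mul_one, Fintype.card_fin]
  rw [h1, Matrix.det_mul, Matrix.det_mul, h2, h3, Matrix.det_fromBlocks_zero₂₁]
  ring

/-- The basis of `F` over the rational numbers. -/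
theorem D1b_basis {m : ℕ} (bb : Module.Basis (Fin (m + 1)) K F) :
    ∃ B : Module.Basis (Fin (m + 1) ⊕ Fin (m + 1)) ℚ F,
      (∀ i, B (Sum.inl i) = bb i) ∧ ∀ i, B (Sum.inr i) = om • bb i := by
  have hd : (om_spec.powerBasis ℚ).dim = 2 := by
    rw [← (om_spec.powerBasis ℚ).finrank, S3.finrank_K]
  let b0 : Module.Basis (Fin 2) ℚ K := (om_spec.powerBasis ℚ).basis.reindex (finCongr hd)
  have hb0 : ∀ i : Fin 2, b0 i = om ^ (i : ℕ) := by
    intro i
    rw [Module.Basis.reindex_apply, PowerBasis.basis_eq_pow, IsPrimitiveRoot.powerBasis_gen]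
    rfl
  let e : Fin 2 × Fin (m + 1) ≃ Fin (m + 1) ⊕ Fin (m + 1) :=
    (finTwoEquiv.prodCongr (Equiv.refl _)).trans (Equiv.boolProdEquivSum (Fin (m + 1)))
  refine ⟨(b0.smulTower bb).reindex e, fun i => ?_, fun i => ?_⟩
  · have h1 : e.symm (Sum.inl i) = (0, i) := by
      rw [Equiv.symm_apply_eq]
      rfl
    rw [Module.Basis.reindex_apply, h1, Module.Basis.smulTower_apply, hb0]
    simp
  · have h1 : e.symm (Sum.inr i) = (1, i) := by
      rw [Equiv.symm_apply_eq]
      rfl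
    rw [Module.Basis.reindex_apply, h1, Module.Basis.smulTower_apply, hb0]
    simp

theorem disc_K {m : ℕ} (σ : Fin (m + 1) → (F →ₐ[K] ℂ)) (hσ : Function.Bijective σ)
    (bb : Module.Basis (Fin (m + 1)) K F) :
    ∃ q : ℚ, 0 < q ∧
      Real.sqrt 3 ^ (m + 1) * ‖dt σ bb‖ ^ 2 = q * Real.sqrt |(discr F : ℝ)| := by
  classical
  obtain ⟨B, hB1, hB2⟩ := D1b_basis bb
  obtain ⟨q, hq0, hq⟩ := disc_basis B
  -- the trace matrix over the complex numbers
  have hFin : Module.Finite K F := Module.Finite.of_basis bb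
  have htr : ∀ x : F, ((Algebra.trace ℚ F x : ℚ) : ℂ) =
      embK (Algebra.trace K F x) + (starRingEnd ℂ) (embK (Algebra.trace K F x)) := by
    intro x
    rw [← Algebra.trace_trace (S := K), D1b_trace]
  set A : Matrix (Fin (m + 1)) (Fin (m + 1)) ℂ :=
    (Algebra.traceMatrix K bb).map embK with hA
  set A' : Matrix (Fin (m + 1)) (Fin (m + 1)) ℂ := A.map (starRingEnd ℂ) with hA'
  have hM : (Algebra.traceMatrix ℚ B).map (algebraMap ℚ ℂ) =
      Matrix.fromBlocks (A + A') (zt • A + (starRingEnd ℂ) zt • A')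
        (zt • A + (starRingEnd ℂ) zt • A')
        ((zt * zt) • A + ((starRingEnd ℂ) zt * (starRingEnd ℂ) zt) • A') := by
    have hent : ∀ (x y : F), (algebraMap ℚ ℂ) (Algebra.traceForm ℚ F x y) =
        embK (Algebra.trace K F (x * y)) + (starRingEnd ℂ) (embK (Algebra.trace K F (x * y))) := by
      intro x y
      rw [Algebra.traceForm_apply]
      exact htr _
    have hsm : ∀ (c : K) (x : F), embK (Algebra.trace K F (c • x)) =
        embK c * embK (Algebra.trace K F x) := by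
      intro c x
      rw [map_smul, smul_eq_mul, map_mul]
    ext i j
    rcases i with i | i <;> rcases j with j | j
    · rw [Matrix.fromBlocks_apply₁₁, Matrix.map_apply, Algebra.traceMatrix_apply, hent, hB1, hB1]
      rfl
    · rw [Matrix.fromBlocks_apply₁₂, Matrix.map_apply, Algebra.traceMatrix_apply, hent, hB1, hB2,
        mul_smul_comm, hsm, embK_om, map_mul (starRingEnd ℂ)]
      rfl
    · rw [Matrix.fromBlocks_apply₂₁, Matrix.map_apply, Algebra.traceMatrix_apply, hent, hB1, hB2,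
        smul_mul_assoc, hsm, embK_om, map_mul (starRingEnd ℂ)]
      rfl
    · rw [Matrix.fromBlocks_apply₂₂, Matrix.map_apply, Algebra.traceMatrix_apply, hent, hB2, hB2,
        smul_mul_assoc, mul_smul_comm, hsm, hsm, embK_om, ← mul_assoc,
        map_mul (starRingEnd ℂ), map_mul (starRingEnd ℂ)]
      rfl
  have hdet : ((Algebra.discr ℚ B : ℚ) : ℂ) =
      ((starRingEnd ℂ) zt - zt) ^ (m + 1) * ((starRingEnd ℂ) zt - zt) ^ (m + 1) *
        (A.det * A'.det) := by
    rw [← D1b_det, ← hM]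
    exact RingHom.map_det (algebraMap ℚ ℂ) (Algebra.traceMatrix ℚ B)
  have hAdet : A.det = dt σ bb ^ 2 := by
    rw [dt_sq σ hσ bb]
    exact (RingHom.map_det (embK : K →+* ℂ) (Algebra.traceMatrix K bb)).symm
  have hA'det : A'.det = (starRingEnd ℂ) A.det := (RingHom.map_det (starRingEnd ℂ) A).symm
  have hz : ‖(starRingEnd ℂ) zt - zt‖ = Real.sqrt 3 := by
    have h1 : (starRingEnd ℂ) zt - zt = ((-Real.sqrt 3 : ℝ) : ℂ) * Complex.I := by
      apply Complex.ext
      · simp
      · simp [Per.zt_im]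
        ring
    rw [h1, norm_mul, Complex.norm_I, mul_one, Complex.norm_real, norm_neg, Real.norm_eq_abs,
      abs_of_nonneg (Real.sqrt_nonneg 3)]
  have hn := congrArg norm hdet
  rw [hA'det, norm_mul, norm_mul, norm_mul, norm_pow, hz, Complex.norm_conj, hAdet, norm_pow] at hn
  have hn2 : ‖((Algebra.discr ℚ B : ℚ) : ℂ)‖ = (|q| : ℝ) ^ 2 * |(discr F : ℝ)| := by
    have h1 : ((Algebra.discr ℚ B : ℚ) : ℂ) = ((((q : ℝ) ^ 2 * (discr F : ℝ)) : ℝ) : ℂ) := by
      rw [hq]
      push_cast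
      ring
    rw [h1, Complex.norm_real, Real.norm_eq_abs, abs_mul, abs_pow]
  rw [hn2] at hn
  refine ⟨|q|, abs_pos.2 hq0, ?_⟩
  have h4 : (Real.sqrt 3 ^ (m + 1) * ‖dt σ bb‖ ^ 2) ^ 2 =
      ((|q| : ℝ) * Real.sqrt |(discr F : ℝ)|) ^ 2 := by
    rw [mul_pow (|(q : ℝ)|), Real.sq_sqrt (abs_nonneg _), hn]
    ring
  have h5 : (0 : ℝ) ≤ Real.sqrt 3 ^ (m + 1) * ‖dt σ bb‖ ^ 2 := by positivity
  have h6 : (0 : ℝ) ≤ (|q| : ℝ) * Real.sqrt |(discr F : ℝ)| := by positivity
  have h7 := (pow_left_inj₀ h5 h6 two_ne_zero).1 h4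
  rw [h7]
  push_cast
  rfl

end Pool.Agent.Lib.MP_1a91b9_ntT.Rq
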