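import Pool.Agent.Lib.MP_1a91b9_ntT.Rq.Fx

/-!
# JOB S10-AR: arithmetic with `Om`, `√3`, `i`

`ar_Om`: `u := Om / ‖Om‖` satisfies `u ^ 6 = -1` (`Per.norm_div_Om` inverted). `I ^ 6 = -1`, so
`(u / I) ^ 6 = 1`, `u / I = -+ zt ^ k` (the sixth roots of unity are `± 1, ± zt, ± zt ^ 2`:
`X^6 - 1 = (X^3 - 1)(X^3 + 1)`), and `I * √3 = 2 zt + 1` (`Per.zt_re`, `Per.zt_im`), so
`u * √3 = (u / I) * (2 zt + 1)` is `embK` of an element of `K` (`embK_om`).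
`ar_real`: `n = r1 + 2 r2`. `√3 ^ (r1 + r2) * ‖Om‖ ^ n * R = Om ^ n * d * embK κ * √|D|`, where
`d ^ 2 = q ^ 2 D`, `D = (-1) ^ r2 |D|`. `(d * √|D|) ^ 2 = q ^ 2 D |D| = (-1) ^ r2 (q |D|) ^ 2`, so
`d * √|D| = ± q |D| I ^ r2` (`sq_eq_sq_iff_eq_or_eq_neg`; `(I ^ r2) ^ 2 = (-1) ^ r2`). So
`R * √3 ^ (r1 + r2) = (Om / ‖Om‖) ^ n * (± q |D| I ^ r2) * embK κ`; multiply by `√3 ^ n * √3 ^ r2`:
`R * √3 ^ (2 r1 + 4 r2) = (√3 Om / ‖Om‖) ^ n * (√3 I) ^ r2 * (± q |D|) * embK κ ∈ embK K`, and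
`√3 ^ (2 r1 + 4 r2) = 3 ^ (r1 + 2 r2)`. So `R` is in `embK K`, real, hence rational (`real_K`).
-/

set_option autoImplicit false

namespace Pool.Agent.Lib.MP_1a91b9_ntT.Rq

open NumberField

theorem ar_I : ∃ x : K, embK x = Complex.I * ((Real.sqrt 3 : ℝ) : ℂ) := by
  refine ⟨2 * om + 1, ?_⟩
  rw [map_add, map_mul, map_one, embK_om, map_ofNat]
  apply Complex.ext
  · simp [Per.zt_re]
    norm_num
  · simp [Per.zt_im]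
    ring

theorem ar_Om : ∃ x : K, embK x = Om / ((‖Om‖ : ℝ) : ℂ) * ((Real.sqrt 3 : ℝ) : ℂ) := by
  obtain ⟨y, hy⟩ := ar_I
  obtain ⟨u, hu⟩ : ∃ u : ℂ, Om / ((‖Om‖ : ℝ) : ℂ) = u := ⟨_, rfl⟩
  have hu6 : u ^ 6 = -1 := by
    have h1 := Per.norm_div_Om
    have h2 : u = (((‖Om‖ : ℝ) : ℂ) / Om)⁻¹ := by rw [inv_div, hu]
    rw [h2, inv_pow, h1]
    norm_num
  obtain ⟨w, hw⟩ : ∃ w : ℂ, w * Complex.I = u := ⟨u / Complex.I, div_mul_cancel₀ _ Complex.I_ne_zero⟩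
  have hI6 : Complex.I ^ 6 = -1 := by
    have h1 : Complex.I ^ 6 = (Complex.I ^ 2) ^ 3 := by ring
    rw [h1, Complex.I_sq]
    norm_num
  have hw6 : w ^ 6 = 1 := by
    have h1 : w ^ 6 * Complex.I ^ 6 = -1 := by rw [← mul_pow, hw, hu6]
    rw [hI6] at h1
    linear_combination -h1
  have hq := S3.zt_quad
  have hprod : (w - 1) * ((w + 1) * ((w - zt) * ((w + zt) * ((w - zt ^ 2) * (w + zt ^ 2))))) = 0 := by
    linear_combination hw6 + (-w ^ 4 + w ^ 2 - w ^ 4 * zt ^ 2 + w ^ 4 * zt + w ^ 2 * zt ^ 4 - w ^ 2 * zt ^ 3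
      + w ^ 2 * zt ^ 2 - w ^ 2 * zt - (zt ^ 3 + 1) * (zt - 1) + w ^ 2 * (zt - 1)) * hq
  have hc : ∃ c : K, embK c = w := by
    rcases mul_eq_zero.1 hprod with h | h
    · exact ⟨1, by rw [map_one]; linear_combination -h⟩
    rcases mul_eq_zero.1 h with h | h
    · exact ⟨-1, by rw [map_neg, map_one]; linear_combination -h⟩
    rcases mul_eq_zero.1 h with h | h
    · exact ⟨om, by rw [embK_om]; linear_combination -h⟩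
    rcases mul_eq_zero.1 h with h | h
    · exact ⟨-om, by rw [map_neg, embK_om]; linear_combination -h⟩
    rcases mul_eq_zero.1 h with h | h
    · exact ⟨om ^ 2, by rw [map_pow, embK_om]; linear_combination -h⟩
    · exact ⟨-om ^ 2, by rw [map_neg, map_pow, embK_om]; linear_combination -h⟩
  obtain ⟨c, hc⟩ := hc
  refine ⟨c * y, ?_⟩
  rw [map_mul, hc, hy, hu, ← hw]
  ring

theorem ar_real (r1 r2 : ℕ) (κ : K) (d : ℂ) (q : ℚ) (D : ℤ) (hD : D ≠ 0)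
    (hs : (D : ℝ) = (-1) ^ r2 * |(D : ℝ)|) (hd : d ^ 2 = ((q ^ 2 * (D : ℚ) : ℚ) : ℂ)) (R : ℝ)
    (h : Om ^ (r1 + 2 * r2) * d * embK κ * ((Real.sqrt |(D : ℝ)| : ℝ) : ℂ) =
      (R : ℂ) * ((Real.sqrt 3 ^ (r1 + r2) * ‖Om‖ ^ (r1 + 2 * r2) : ℝ) : ℂ)) :
    ∃ r : ℚ, (r : ℝ) = R := by
  obtain ⟨xI, hxI⟩ := ar_I
  obtain ⟨xO, hxO⟩ := ar_Om
  have hO : ((‖Om‖ : ℝ) : ℂ) ≠ 0 := by
    exact_mod_cast norm_ne_zero_iff.2 Om_ne_zero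
  have h3 : ((Real.sqrt 3 : ℝ) : ℂ) ^ 2 = 3 := by
    rw [← Complex.ofReal_pow, Real.sq_sqrt (by norm_num : (0 : ℝ) ≤ 3)]
    norm_num
  have hA : ((Real.sqrt |(D : ℝ)| : ℝ) : ℂ) ^ 2 = ((|(D : ℝ)| : ℝ) : ℂ) := by
    rw [← Complex.ofReal_pow, Real.sq_sqrt (abs_nonneg _)]
  have hDC : (D : ℂ) = (-1) ^ r2 * ((|(D : ℝ)| : ℝ) : ℂ) := by
    have h1 := congrArg (fun t : ℝ => (t : ℂ)) hs
    simp only [Complex.ofReal_mul, Complex.ofReal_pow, Complex.ofReal_neg, Complex.ofReal_one,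
      Complex.ofReal_intCast] at h1
    exact h1
  have hd' : d ^ 2 = (q : ℂ) ^ 2 * (D : ℂ) := by
    rw [hd]
    push_cast
    ring
  have hsq : (d * ((Real.sqrt |(D : ℝ)| : ℝ) : ℂ)) ^ 2 =
      ((q : ℂ) * ((|(D : ℝ)| : ℝ) : ℂ) * Complex.I ^ r2) ^ 2 := by
    rw [mul_pow, hA, hd', hDC, mul_pow, mul_pow, ← pow_mul, mul_comm r2 2, pow_mul, Complex.I_sq]
    ring
  obtain ⟨ε, hε⟩ : ∃ ε : ℚ, d * ((Real.sqrt |(D : ℝ)| : ℝ) : ℂ) =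
      (ε : ℂ) * ((q : ℂ) * ((|(D : ℝ)| : ℝ) : ℂ) * Complex.I ^ r2) := by
    rcases sq_eq_sq_iff_eq_or_eq_neg.1 hsq with h1 | h1
    · exact ⟨1, by rw [h1]; push_cast; ring⟩
    · exact ⟨-1, by rw [h1]; push_cast; ring⟩
  have hDQ : ((|(D : ℝ)| : ℝ) : ℂ) = (((|D| : ℤ) : ℚ) : ℂ) := by
    rw [← Int.cast_abs, Complex.ofReal_intCast, Rat.cast_intCast]
  refine real_K (x := xO ^ (r1 + 2 * r2) * xI ^ r2 *
    algebraMap ℚ K (ε * (q * ((|D| : ℤ) : ℚ)) / 3 ^ (r1 + 2 * r2)) * κ) ?_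
  have hrat : embK (algebraMap ℚ K (ε * (q * ((|D| : ℤ) : ℚ)) / 3 ^ (r1 + 2 * r2))) =
      (ε : ℂ) * ((q : ℂ) * ((|(D : ℝ)| : ℝ) : ℂ)) / 3 ^ (r1 + 2 * r2) := by
    rw [hDQ, eq_ratCast, map_ratCast]
    push_cast
    rfl
  rw [map_mul, map_mul, map_mul, map_pow, map_pow, hxO, hxI, hrat]
  have h3n : ((3 : ℂ)) ^ (r1 + 2 * r2) ≠ 0 := pow_ne_zero _ (by norm_num)
  have hR : (R : ℂ) * 3 ^ (r1 + 2 * r2) * ((‖Om‖ : ℝ) : ℂ) ^ (r1 + 2 * r2) =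
      Om ^ (r1 + 2 * r2) * (d * ((Real.sqrt |(D : ℝ)| : ℝ) : ℂ)) * embK κ *
        ((Real.sqrt 3 : ℝ) : ℂ) ^ (r1 + 3 * r2) := by
    have e1 : (3 : ℂ) ^ (r1 + 2 * r2) = ((Real.sqrt 3 : ℝ) : ℂ) ^ (r1 + r2) *
        ((Real.sqrt 3 : ℝ) : ℂ) ^ (r1 + 3 * r2) := by
      rw [← h3, ← pow_mul, ← pow_add]
      congr 1
      ring
    have e2 := congrArg (fun t : ℂ => t * ((Real.sqrt 3 : ℝ) : ℂ) ^ (r1 + 3 * r2)) h
    simp only [Complex.ofReal_mul, Complex.ofReal_pow] at e2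
    rw [e1]
    linear_combination -e2
  rw [hε] at hR
  have hexp : r1 + 3 * r2 = (r1 + 2 * r2) + r2 := by ring
  rw [hexp, pow_add ((Real.sqrt 3 : ℝ) : ℂ)] at hR
  rw [mul_pow, mul_pow, div_pow]
  field_simp
  linear_combination -hR

end Pool.Agent.Lib.MP_1a91b9_ntT.Rq
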