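import Pool.Agent.Lib.MP_1a91b9_ntT.Rq.Lv
import Pool.Agent.Lib.MP_1a91b9_ntT.Rq.D2
import Pool.Agent.Lib.MP_1a91b9_ntT.Rq.Ar
import Pool.Agent.Lib.MP_1a91b9_ntT.P.Ratio

/-!
# S10 final: the quotient `L(E/N, 1) √|D| / Ω` is a rational number which is a unit at `2`
-/

set_option autoImplicit false

namespace Pool.Agent.Lib.MP_1a91b9_ntT.Rq

open IsDedekindDomain NumberField Pool.Agent.Lib.MP_1a91b9_ntT.S4 Pool.Agent.Lib.MP_1a91b9_nt

universe u

/-- A rational number which is a unit in all the valuation rings of `ℂ` above `2` has odd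
numerator and denominator. -/
theorem odd_of_unit {q : ℚ} (h : ∀ A : ValuationSubring ℂ, Two A → A.valuation (q : ℂ) = 1) :
    Odd q.num ∧ Odd q.den := by
  obtain ⟨A, hA⟩ := S3.exists_A
  have h1 := h A hA
  have hden : (q.den : ℂ) ≠ 0 := by exact_mod_cast q.den_nz
  have h2 : (q : ℂ) * ((q.den : ℤ) : ℂ) = (q.num : ℂ) := by
    rw [Rat.cast_def, Int.cast_natCast, div_mul_cancel₀ _ hden]
  have h3 := congrArg A.valuation h2
  rw [map_mul, h1, one_mul] at h3
  have hev : ∀ n : ℤ, Even n → A.valuation (n : ℂ) < 1 := by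
    rintro n ⟨k, rfl⟩
    have e : ((k + k : ℤ) : ℂ) = 2 * (k : ℂ) := by push_cast; ring
    rw [e, map_mul]
    exact mul_lt_one_of_lt_of_le (S3.v_two_lt hA) (S3.v_int_le k)
  have hcop := q.reduced
  constructor
  · by_contra hc
    rw [Int.not_odd_iff_even] at hc
    have hd : Odd (q.den : ℤ) := by
      rw [← Int.not_even_iff_odd]
      intro he
      have h4 : (2 : ℕ) ∣ q.num.natAbs := Int.natCast_dvd.1 (by exact_mod_cast hc.two_dvd)
      have h5 : (2 : ℕ) ∣ q.den := by exact_mod_cast he.two_dvd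
      have h6 := Nat.dvd_gcd h4 h5
      rw [hcop] at h6
      omega
    rw [S3.v_odd hA hd] at h3
    exact absurd h3.symm (hev _ hc).ne
  · by_contra hc
    rw [Nat.not_odd_iff_even] at hc
    have hn : Odd q.num := by
      rw [← Int.not_even_iff_odd]
      intro he
      have h4 : (2 : ℕ) ∣ q.num.natAbs := Int.natCast_dvd.1 (by exact_mod_cast he.two_dvd)
      have h6 := Nat.dvd_gcd h4 hc.two_dvd
      rw [hcop] at h6
      omega
    rw [S3.v_odd hA hn] at h3
    exact absurd h3 (hev _ (by exact_mod_cast hc)).ne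

theorem normSq_rat (x : K) : ∃ q : ℚ, (q : ℝ) = ‖embK x‖ ^ 2 := by
  obtain ⟨y, hy⟩ := va_conj x
  refine real_K (x := x * y) ?_
  rw [map_mul, ← hy, Complex.mul_conj, Complex.normSq_eq_norm_sq]

/-- The common part of the two cases. -/
theorem fin_aux {N : Type u} [Field N] [NumberField N] (hd : Odd (discr N)) {g : ℂ → ℂ} {q : ℚ}
    (hgA : ∀ A : ValuationSubring ℂ, Two A → A.valuation (g 1) = A.valuation Om ^ Module.finrank ℚ N)
    (hq : g 1 * (Real.sqrt |(discr N : ℝ)| : ℝ) =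
      (q : ℂ) * (∏ v : InfinitePlace N, Per.perAt (E N) v : ℝ)) :
    g 1 ≠ 0 ∧ Odd q.num ∧ Odd q.den := by
  have hO : ∀ A : ValuationSubring ℂ, A.valuation Om ≠ 0 := fun A => (map_ne_zero _).2 Om_ne_zero
  refine ⟨?_, odd_of_unit fun A hA => ?_⟩
  · obtain ⟨A, hA⟩ := S3.exists_A
    intro h0
    have h1 := hgA A hA
    rw [h0, map_zero] at h1
    exact pow_ne_zero _ (hO A) h1.symm
  · have h1 := congrArg A.valuation hq
    rw [map_mul, map_mul, hgA A hA, Per.val_sqrt_odd hA hd, Per.val_prod hA, mul_one] at h1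
    exact (mul_eq_right₀ (pow_ne_zero _ (hO A))).1 h1.symm

theorem fin_K (F : Type u) [Field F] [NumberField F] [Algebra K F] (h : TowerK F)
    (hd : Odd (discr F)) :
    ∃ (g : ℂ → ℂ) (q : ℚ), Differentiable ℂ g ∧ (∀ s : ℂ, 2 < s.re → g s = (E F).LSeries s) ∧
      g 1 ≠ 0 ∧ Odd q.num ∧ Odd q.den ∧
      g 1 * (Real.sqrt |(discr F : ℝ)| : ℝ) =
        (q : ℂ) * (∏ v : InfinitePlace F, Per.perAt (E F) v : ℝ) := by
  have hex := nf_exists (F := F)
  obtain ⟨m, hm⟩ : ∃ m, Module.finrank K F = m + 1 :=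
    Nat.exists_eq_succ_of_ne_zero Module.finrank_pos.ne'
  rw [hm] at hex
  obtain ⟨σ, hσ⟩ := hex
  set bb : Module.Basis (Fin (m + 1)) K F := Module.finBasisOfFinrankEq K F hm
  obtain ⟨L, κ, hL, hL1, hLW, hLv⟩ := lval_K h σ hσ bb
  obtain ⟨q0, hq0, hdisc⟩ := disc_K σ hσ bb
  obtain ⟨q1, hq1⟩ := normSq_rat κ
  have hfr : Module.finrank ℚ F = 2 * (m + 1) := by
    rw [← Module.finrank_mul_finrank ℚ K F, u4_finrank, hm]
  set g : ℂ → ℂ := fun s => (starRingEnd ℂ) (L ((starRingEnd ℂ) s)) * L s with hg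
  have hgs : ∀ s : ℂ, 2 < s.re → g s = (E F).LSeries s := by
    intro s hs
    change (starRingEnd ℂ) (L ((starRingEnd ℂ) s)) * L s = _
    rw [LSeries_E (noCube3_tower F h) s hs, hL1 s hs, hL1 _ (by rw [Complex.conj_re]; exact hs),
      ← Lf_conj]
  have hgA : ∀ A : ValuationSubring ℂ, Two A →
      A.valuation (g 1) = A.valuation Om ^ Module.finrank ℚ F := by
    intro A hA
    change A.valuation ((starRingEnd ℂ) (L ((starRingEnd ℂ) 1)) * L 1) = _
    have e : Module.finrank ℚ F = Module.finrank K F + Module.finrank K F := by rw [hfr, hm]; ring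
    rw [map_one, map_mul, Per.val_conj_div (hLW _ (Per.two_comap hA)),
      Per.val_of_div (hLW _ hA), ← pow_add, e]
  have hg1 : g 1 = ((‖L 1‖ ^ 2 : ℝ) : ℂ) := by
    change (starRingEnd ℂ) (L ((starRingEnd ℂ) 1)) * L 1 = _
    rw [map_one, mul_comm, Complex.mul_conj, Complex.normSq_eq_norm_sq]
  have hcard : Fintype.card (InfinitePlace F) = m + 1 := by
    have h1 := InfinitePlace.card_eq_nrRealPlaces_add_nrComplexPlaces F
    have h2 := InfinitePlace.card_add_two_mul_card_eq_rank F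
    have h3 : IsTotallyComplex F := totallyComplex_of_K
    have h4 : InfinitePlace.nrRealPlaces F = 0 := IsTotallyComplex.nrRealPlaces_eq_zero F
    omega
  have hs3 : 0 < Real.sqrt 3 := Real.sqrt_pos.2 (by norm_num)
  obtain ⟨DD, hDD⟩ : ∃ z : ℤ, z = |discr F| := ⟨_, rfl⟩
  have hq : g 1 * (Real.sqrt |(discr F : ℝ)| : ℝ) =
      ((q1 * q0 * (DD : ℚ) / 3 ^ (m + 1) : ℚ) : ℂ) *
        (∏ v : InfinitePlace F, Per.perAt (E F) v : ℝ) := by
    have key : ‖L 1‖ ^ 2 * Real.sqrt |(discr F : ℝ)| =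
        (q1 * q0 * (DD : ℝ) / 3 ^ (m + 1)) *
          (Real.sqrt 3 ^ (m + 1) * ‖Om‖ ^ (2 * (m + 1))) := by
      rw [hDD, Int.cast_abs]
      have h33 : (3 : ℝ) ^ (m + 1) = Real.sqrt 3 ^ (m + 1) * Real.sqrt 3 ^ (m + 1) := by
        rw [← mul_pow, Real.mul_self_sqrt (by norm_num)]
      have hD : |(discr F : ℝ)| = Real.sqrt |(discr F : ℝ)| * Real.sqrt |(discr F : ℝ)| :=
        (Real.mul_self_sqrt (abs_nonneg _)).symm
      have hLn : ‖L 1‖ ^ 2 = ‖Om‖ ^ (2 * (m + 1)) * ‖dt σ bb‖ ^ 2 * q1 := by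
        rw [hLv, norm_mul, norm_mul, norm_pow, hq1]
        ring
      rw [hLn, h33]
      have h3 : Real.sqrt 3 ^ (m + 1) ≠ 0 := (pow_pos hs3 _).ne'
      set r : ℝ := Real.sqrt |(discr F : ℝ)| with hr
      rw [hD]
      field_simp
      linear_combination (‖Om‖ ^ (2 * (m + 1)) * q1 * r) * hdisc
    rw [hg1, Per.prod_perAt, hcard, hfr, ← Complex.ofReal_mul, key]
    push_cast
    ring
  obtain ⟨h1, h2, h3⟩ := fin_aux hd hgA hq
  exact ⟨g, _, (differentiable_conj_conj hL).mul hL, hgs, h1, h2, h3, hq⟩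

theorem fin_N (N : Type u) [Field N] [NumberField N] (h : Tower N) (hd : Odd (discr N)) :
    ∃ (g : ℂ → ℂ) (q : ℚ), Differentiable ℂ g ∧ (∀ s : ℂ, 2 < s.re → g s = (E N).LSeries s) ∧
      g 1 ≠ 0 ∧ Odd q.num ∧ Odd q.den ∧
      g 1 * (Real.sqrt |(discr N : ℝ)| : ℝ) =
        (q : ℂ) * (∏ v : InfinitePlace N, Per.perAt (E N) v : ℝ) := by
  by_cases hy : ∃ y : N, y ^ 2 = -3
  · obtain ⟨y, hy⟩ := hy
    obtain ⟨_, -⟩ := S7.exists_algebraK N y hy
    refine fin_K N (S5.tower_towerK N N y hy (fun z => ⟨z, 0, ?_⟩) h) hd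
    simp
  · push Not at hy
    obtain ⟨F, _, _, _, _, y, hy2, hom, hfr, hgen⟩ := S7.exists_up N hy
    have hn : ∀ x : N, algebraMap N F x ≠ algebraMap K F om := by
      intro x hx
      apply hy (2 * x + 1)
      apply (algebraMap N F).injective
      rw [map_pow, map_add, map_mul, map_one, map_ofNat, hx, map_neg, map_ofNat]
      have h1 : algebraMap K F ((2 * om + 1) ^ 2) = algebraMap K F (-3) := by rw [S7.om_sq]
      rw [map_pow, map_add, map_mul, map_one, map_ofNat, map_neg, map_ofNat] at h1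
      exact h1
    have hex := nf_exists (F := F)
    obtain ⟨m, hm⟩ : ∃ m, Module.finrank K F = m + 1 :=
      Nat.exists_eq_succ_of_ne_zero Module.finrank_pos.ne'
    rw [hm] at hex
    obtain ⟨σ, hσ⟩ := hex
    obtain ⟨bb, q, hq0, hdq⟩ := disc_N hfr hn σ hσ
    obtain ⟨L, κ, hL, hL1, hLW, hLv⟩ := lval_K (S5.tower_towerK N F y hy2 hgen h) σ hσ bb
    have hfrN : Module.finrank ℚ N = m + 1 := by
      have h1 := Module.finrank_mul_finrank ℚ N F
      have h2 := Module.finrank_mul_finrank ℚ K F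
      rw [hfr] at h1
      rw [u4_finrank, hm] at h2
      omega
    have hgs : ∀ s : ℂ, 2 < s.re → L s = (E N).LSeries s := fun s hs => by
      rw [hL1 s hs, LSeries_B hfr hn (noCube3_towerQ N h) s hs]
    have hgA : ∀ A : ValuationSubring ℂ, Two A →
        A.valuation (L 1) = A.valuation Om ^ Module.finrank ℚ N := by
      intro A hA
      rw [Per.val_of_div (hLW _ hA), hm, hfrN]
    have hre := Per.value_real hL hgs
    have hP := Per.prod_perAt_pos (F := N)
    have hrk := InfinitePlace.card_add_two_mul_card_eq_rank N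
    have hcard := InfinitePlace.card_eq_nrRealPlaces_add_nrComplexPlaces N
    set r1 := InfinitePlace.nrRealPlaces N with hr1
    set r2 := InfinitePlace.nrComplexPlaces N with hr2
    have hsgn : (discr N : ℝ) = (-1) ^ r2 * |(discr N : ℝ)| := by
      have h1 := sign_discr (K := N)
      have h2 := Int.sign_mul_abs (discr N)
      rw [h1] at h2
      have h3 : (((-1) ^ r2 * |discr N| : ℤ) : ℝ) = ((discr N : ℤ) : ℝ) := by rw [h2]
      push_cast at h3
      exact h3.symm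
    set P : ℝ := ∏ v : InfinitePlace N, Per.perAt (E N) v with hPdef
    set R : ℝ := (L 1).re * Real.sqrt |(discr N : ℝ)| / P with hR
    have hRP : L 1 * ((Real.sqrt |(discr N : ℝ)| : ℝ) : ℂ) = (R : ℂ) * ((P : ℝ) : ℂ) := by
      rw [← Complex.ofReal_mul, hR, div_mul_cancel₀ _ hP.ne']
      push_cast
      rw [← hre]
    have hP2 : P = Real.sqrt 3 ^ (r1 + r2) * ‖Om‖ ^ (r1 + 2 * r2) := by
      rw [hPdef, Per.prod_perAt, hcard, hrk]
    obtain ⟨r, hr⟩ := ar_real r1 r2 κ (dt σ bb) q (discr N) (discr_ne_zero N) hsgn hdq R (by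
      rw [← hP2, ← hRP, hLv, hrk, hfrN])
    have hq : L 1 * (Real.sqrt |(discr N : ℝ)| : ℝ) = (r : ℂ) * ((P : ℝ) : ℂ) := by
      rw [hRP, ← hr]
      push_cast
      rfl
    obtain ⟨h1, h2, h3⟩ := fin_aux hd hgA hq
    exact ⟨L, r, hL, hgs, h1, h2, h3, hq⟩

end Pool.Agent.Lib.MP_1a91b9_ntT.Rq
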