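import Pool.Agent.Lib.MP_1a91b9_ntT.Rq.Fin
import Pool.Agent.Lib.MP_1a91b9_ntT.S9.Fin

/-!
# The 2-part of the Birch and Swinnerton-Dyer formula, with a rational quotient
-/

set_option autoImplicit false

namespace Pool.Agent.Lib.MP_1a91b9_ntT.Rq

open NumberField IsDedekindDomain WeierstrassCurve Pool.Agent.Lib.MP_1a91b9_ntT.S9

universe u

/-- The 2-part of the conjecture of Birch and Swinnerton-Dyer for `W` over `N` when the
L-function does not vanish at `1`, in its strong form: the L-series of `W` has an entire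
continuation `g` with `g 1 ≠ 0`, the groups `W(N)` and `Sha[2^∞]` are finite, and
`L(W, 1) √|D| / Ω = q * #Sha[2^∞] * ∏ c_v / #W(N)²` with a rational number `q` whose numerator and
denominator are odd (the regulator is `1`). -/
def TwoPartQ {N : Type*} [Field N] [NumberField N] (W : WeierstrassCurve N) : Prop :=
  ∃ (g : ℂ → ℂ) (q : ℚ), Differentiable ℂ g ∧ (∀ s : ℂ, 3 / 2 < s.re → g s = W.LSeries s) ∧
    g 1 ≠ 0 ∧ Finite W.toAffine.Point ∧ Finite (ShaTwo W) ∧ Odd q.num ∧ Odd q.den ∧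
    g 1 * (√|(discr N : ℝ)| : ℝ) / (period W : ℝ) =
      (q * ((Nat.card (ShaTwo W) : ℝ) * ((∏ᶠ v : HeightOneSpectrum (𝓞 N), tam W v : ℕ) : ℝ) /
        (Nat.card W.toAffine.Point : ℝ) ^ 2) : ℝ)

theorem rat_normFactor {N : Type*} [Field N] [NumberField N] (W : WeierstrassCurve N) :
    ∃ q : ℚ, (q : ℝ) = ∏ᶠ v : HeightOneSpectrum (𝓞 N), normFactor W v := by
  refine finprod_induction (p := fun x : ℝ => ∃ q : ℚ, (q : ℝ) = x) ⟨1, by norm_num⟩ ?_ ?_
  · rintro x y ⟨a, rfl⟩ ⟨b, rfl⟩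
    exact ⟨a * b, by push_cast; ring⟩
  · intro v
    exact ⟨(Ideal.absNorm v.asIdeal : ℚ) ^ (-(WithZero.log
      (Valued.v ((minChange W v).u : v.adicCompletion N)))), by rw [normFactor]; push_cast; rfl⟩

theorem two_part_rat {N : Type u} [Field N] [NumberField N] (h : Tower N)
    (hd : Odd (discr N)) : TwoPartQ (E N) := by
  have hG := S5.tower_good h
  obtain ⟨hf, hodd⟩ := odd_points hG
  obtain ⟨g, q, hg, hg2, hg1, hqn, hqd, hq⟩ := fin_N N h hd
  have hsub : Subsingleton (ShaTwo (E N)) := shaTwo_trivial hG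
  have hc : Nat.card (ShaTwo (E N)) = 1 := card_shaTwo hG
  have hTo : Odd (∏ᶠ v : HeightOneSpectrum (𝓞 N), tam (E N) v) := prod_tam_odd hG
  have hΦ0 := finprod_normFactor_ne_zero N
  obtain ⟨φ, hφ⟩ := rat_normFactor (E N)
  obtain ⟨T, hT⟩ : ∃ T : ℕ, T = ∏ᶠ v : HeightOneSpectrum (𝓞 N), tam (E N) v := ⟨_, rfl⟩
  obtain ⟨C, hC⟩ : ∃ C : ℕ, C = Nat.card (E N).toAffine.Point := ⟨_, rfl⟩
  obtain ⟨P, hP⟩ : ∃ P : ℝ, P = ∏ v : InfinitePlace N, Per.perAt (E N) v := ⟨_, rfl⟩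
  have hP0 : P ≠ 0 := hP ▸ Per.prod_perAt_pos.ne'
  rw [← hT] at hTo
  rw [← hC] at hodd
  have hT0 : (T : ℂ) ≠ 0 := Nat.cast_ne_zero.2 hTo.pos.ne'
  have hC0 : (C : ℂ) ≠ 0 := Nat.cast_ne_zero.2 hodd.pos.ne'
  rw [← hφ] at hΦ0
  have hφ0 : (φ : ℂ) ≠ 0 := by
    have h1 : φ ≠ 0 := by
      rintro rfl
      exact hΦ0 (by norm_num)
    exact_mod_cast h1
  have hPC : (P : ℂ) ≠ 0 := by exact_mod_cast hP0
  have hval : ∀ A : ValuationSubring ℂ, Two A →
      A.valuation (((q * (C : ℚ) ^ 2 / ((T : ℚ) * φ) : ℚ)) : ℂ) = 1 := by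
    intro A hA
    have h1 : A.valuation (φ : ℂ) = 1 := by
      have h2 := val_finprod (N := N) hA
      rw [← hφ] at h2
      exact_mod_cast h2
    have h3 : A.valuation (q : ℂ) = 1 := by
      have h4 : (q : ℂ) * ((q.den : ℕ) : ℂ) = (q.num : ℂ) := by
        rw [Rat.cast_def, div_mul_cancel₀ _ (by exact_mod_cast q.den_nz)]
      have h5 := congrArg A.valuation h4
      rw [map_mul, val_natCast hA hqd, mul_one, S3.v_odd hA hqn] at h5
      exact h5
    push_cast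
    rw [map_div₀, map_mul, map_mul, map_pow, h3, h1, val_natCast hA hodd, val_natCast hA hTo]
    simp
  obtain ⟨o1, o2⟩ := odd_of_unit hval
  refine ⟨g, _, hg, S7.half_tower N h hg hg2, hg1, hf, Finite.of_subsingleton, o1, o2, ?_⟩
  have hper : period (E N) = (φ : ℝ) * P := by rw [hφ, hP]; rfl
  rw [← hP] at hq
  rw [hq, hper, hc, ← hT, ← hC]
  push_cast
  field_simp

end Pool.Agent.Lib.MP_1a91b9_ntT.Rq
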