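import Pool.Agent.Lib.MP_1a91b9_ntT.Rq.Defs

/-!
# JOB S10-IX: the permutation of the index set given by a multiplier

`ix_rep`: every `y : 𝓞 K` is `p.1 + p.2 om + N a` for a unique `p : Fin N × Fin N` and some
`a : 𝓞 K` (`N > 0`): `y = u + v om` with integers `u v` (`S3`: see `S3.latE`, `S3.mem_PP_iff`
and `embK` injective; there may already be such a lemma in S3/Ring.lean or S2/Lat.lean), division with
remainder of `u` and `v` by `N`.
`ix_perm`: `N = c * D`. For `p` let `π p` be the representative (`ix_rep`) of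
`χ * (p.1 + p.2 om)`. It is injective: if `π p = π p'` then `N ∣ χ (p - p')`, so `N ∣ p - p'`
(`IsCoprime.dvd_of_dvd_mul_left`), `p = p'` by uniqueness; a finite set, so bijective
(`Finite.injective_iff_bijective`, `Equiv.ofBijective`). `ixK D c p = (p.1 + p.2 om) / D`, so
`ixK (π p) = (χ (p.1 + p.2 om) - N a) / D = χ ixK p - c a`.
`ixC_eq`: `embK om = zt` (`embK_om`), `map_div₀`, `map_natCast`.
-/

set_option autoImplicit false

namespace Pool.Agent.Lib.MP_1a91b9_ntT.Rq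

open NumberField

theorem ix_add (a b : 𝓞 K) : ((a + b : 𝓞 K) : K) = (a : K) + (b : K) :=
  map_add (algebraMap (𝓞 K) K) a b

theorem ix_mul (a b : 𝓞 K) : ((a * b : 𝓞 K) : K) = (a : K) * (b : K) :=
  map_mul (algebraMap (𝓞 K) K) a b

theorem ix_neg (a : 𝓞 K) : ((-a : 𝓞 K) : K) = -(a : K) := map_neg (algebraMap (𝓞 K) K) a

theorem ix_zero : ((0 : 𝓞 K) : K) = 0 := map_zero (algebraMap (𝓞 K) K)

theorem ix_nat (n : ℕ) : ((n : 𝓞 K) : K) = n := map_natCast (algebraMap (𝓞 K) K) n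

theorem ix_int (n : ℤ) : ((n : 𝓞 K) : K) = n := map_intCast (algebraMap (𝓞 K) K) n

/-- `1` and `om` are linearly independent over the integers. -/
theorem ix_inj {u v : ℤ} (h : (u : K) + (v : K) * om = 0) : u = 0 ∧ v = 0 := by
  have h1 := congrArg embK h
  rw [map_add, map_mul, map_intCast, map_intCast, embK_om, map_zero] at h1
  have him := congrArg Complex.im h1
  have hre := congrArg Complex.re h1
  rw [Complex.add_im, Complex.mul_im, Complex.intCast_im, Complex.intCast_im, Complex.intCast_re,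
    Complex.zero_im, zero_add, zero_mul, add_zero] at him
  rw [Complex.add_re, Complex.mul_re, Complex.intCast_im, Complex.intCast_re, Complex.intCast_re,
    Complex.zero_re, zero_mul, sub_zero] at hre
  have hq : (v : ℝ) = 0 := (mul_eq_zero.mp him).resolve_right S3.zt_im_ne_zero
  rw [hq, zero_mul, add_zero] at hre
  exact ⟨by exact_mod_cast hre, by exact_mod_cast hq⟩

theorem ix_rep (N : ℕ) (hN : 0 < N) (y : 𝓞 K) :
    ∃! p : Fin N × Fin N, ∃ a : 𝓞 K,
      (y : K) = (((p.1 : ℕ) : K) + ((p.2 : ℕ) : K) * om) + (N : K) * (a : K) := by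
  obtain ⟨u, v, huv⟩ := S3.exists_coords y
  have hN0 : (N : ℤ) ≠ 0 := by exact_mod_cast hN.ne'
  have hNpos : (0 : ℤ) < N := by exact_mod_cast hN
  have hu0 : 0 ≤ u % (N : ℤ) := Int.emod_nonneg u hN0
  have hv0 : 0 ≤ v % (N : ℤ) := Int.emod_nonneg v hN0
  have hu1 : u % (N : ℤ) < N := Int.emod_lt_of_pos u hNpos
  have hv1 : v % (N : ℤ) < N := Int.emod_lt_of_pos v hNpos
  have hu2 : ((u % (N : ℤ)).toNat : ℤ) = u % (N : ℤ) := Int.toNat_of_nonneg hu0
  have hv2 : ((v % (N : ℤ)).toNat : ℤ) = v % (N : ℤ) := Int.toNat_of_nonneg hv0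
  have hu3 : (u % (N : ℤ)).toNat < N := by omega
  have hv3 : (v % (N : ℤ)).toNat < N := by omega
  have hu4 : u % (N : ℤ) + N * (u / N) = u := Int.emod_add_mul_ediv u N
  have hv4 : v % (N : ℤ) + N * (v / N) = v := Int.emod_add_mul_ediv v N
  refine ⟨(⟨(u % (N : ℤ)).toNat, hu3⟩, ⟨(v % (N : ℤ)).toNat, hv3⟩),
    ⟨((u / (N : ℤ) : ℤ) : 𝓞 K) + ((v / (N : ℤ) : ℤ) : 𝓞 K) * S3.omO, ?_⟩, ?_⟩
  · have e1 : (((u % (N : ℤ)).toNat : ℕ) : K) = ((u % (N : ℤ) : ℤ) : K) := by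
      conv_rhs => rw [← hu2]
      rw [Int.cast_natCast]
    have e2 : (((v % (N : ℤ)).toNat : ℕ) : K) = ((v % (N : ℤ) : ℤ) : K) := by
      conv_rhs => rw [← hv2]
      rw [Int.cast_natCast]
    have e3 : ((((u / (N : ℤ) : ℤ) : 𝓞 K) + ((v / (N : ℤ) : ℤ) : 𝓞 K) * S3.omO : 𝓞 K) : K) =
        ((u / (N : ℤ) : ℤ) : K) + ((v / (N : ℤ) : ℤ) : K) * om := by
      rw [ix_add, ix_mul, ix_int, ix_int]
      rfl
    have e4 : ((u % (N : ℤ) : ℤ) : K) + (N : K) * ((u / (N : ℤ) : ℤ) : K) = (u : K) := by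
      rw [← Int.cast_natCast (R := K) N, ← Int.cast_mul, ← Int.cast_add, hu4]
    have e5 : ((v % (N : ℤ) : ℤ) : K) + (N : K) * ((v / (N : ℤ) : ℤ) : K) = (v : K) := by
      rw [← Int.cast_natCast (R := K) N, ← Int.cast_mul, ← Int.cast_add, hv4]
    rw [huv, e3]
    show (u : K) + (v : K) * om = ((((u % (N : ℤ)).toNat : ℕ) : K) +
      (((v % (N : ℤ)).toNat : ℕ) : K) * om) + _
    rw [e1, e2, ← e4, ← e5]
    ring
  · rintro ⟨q1, q2⟩ ⟨a, ha⟩
    obtain ⟨m, n, hmn⟩ := S3.exists_coords a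
    rw [huv, hmn] at ha
    have h0 : ((u - ((q1 : ℕ) : ℤ) - N * m : ℤ) : K) + ((v - ((q2 : ℕ) : ℤ) - N * n : ℤ) : K) * om
        = 0 := by
      push_cast
      linear_combination ha
    obtain ⟨h1, h2⟩ := ix_inj h0
    have e1 : u % (N : ℤ) = ((q1 : ℕ) : ℤ) := by
      have : u = ((q1 : ℕ) : ℤ) + N * m := by linarith
      rw [this, Int.add_mul_emod_self_left]
      exact Int.emod_eq_of_lt (by positivity) (by exact_mod_cast q1.2)
    have e2 : v % (N : ℤ) = ((q2 : ℕ) : ℤ) := by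
      have : v = ((q2 : ℕ) : ℤ) + N * n := by linarith
      rw [this, Int.add_mul_emod_self_left]
      exact Int.emod_eq_of_lt (by positivity) (by exact_mod_cast q2.2)
    refine Prod.ext (Fin.ext ?_) (Fin.ext ?_)
    · show (q1 : ℕ) = (u % (N : ℤ)).toNat
      omega
    · show (q2 : ℕ) = (v % (N : ℤ)).toNat
      omega

theorem ix_perm (D c : ℕ) (hD : 0 < D) (hc : 0 < c) (χ : 𝓞 K)
    (h : IsCoprime χ ((c * D : ℕ) : 𝓞 K)) :
    ∃ π : Equiv.Perm (Fin (c * D) × Fin (c * D)), ∀ p, ∃ a : 𝓞 K,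
      ixK D c (π p) = (χ : K) * ixK D c p + (c : K) * (a : K) := by
  classical
  have hN : 0 < c * D := Nat.mul_pos hc hD
  obtain ⟨el, hel⟩ : ∃ el : Fin (c * D) × Fin (c * D) → 𝓞 K,
      ∀ p, (el p : K) = (((p.1 : ℕ) : K) + ((p.2 : ℕ) : K) * om) := by
    refine ⟨fun p => ((p.1 : ℕ) : 𝓞 K) + ((p.2 : ℕ) : 𝓞 K) * S3.omO, fun p => ?_⟩
    show ((((p.1 : ℕ) : 𝓞 K) + ((p.2 : ℕ) : 𝓞 K) * S3.omO : 𝓞 K) : K) = _
    rw [ix_add, ix_mul, ix_nat, ix_nat]
    rfl
  have hex : ∀ p : Fin (c * D) × Fin (c * D), ∃ q : Fin (c * D) × Fin (c * D), ∃ a : 𝓞 K,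
      χ * el p = el q + ((c * D : ℕ) : 𝓞 K) * a := by
    intro p
    obtain ⟨q, ⟨a, ha⟩, _⟩ := ix_rep (c * D) hN (χ * el p)
    refine ⟨q, a, RingOfIntegers.ext ?_⟩
    rw [ix_add, ix_mul ((c * D : ℕ) : 𝓞 K), ix_nat, hel q]
    exact ha
  choose f a hf using hex
  have hinj : Function.Injective f := by
    intro p p' hpp
    have h1 : ((c * D : ℕ) : 𝓞 K) ∣ χ * (el p - el p') := by
      refine ⟨a p - a p', ?_⟩
      have e1 := hf p
      have e2 := hf p'
      rw [hpp] at e1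
      linear_combination e1 - e2
    obtain ⟨b, hb⟩ := h.symm.dvd_of_dvd_mul_left h1
    obtain ⟨q, _, hq⟩ := ix_rep (c * D) hN (el p)
    have e1 : p = q := hq p ⟨0, by rw [hel p, ix_zero, mul_zero, add_zero]⟩
    have e2 : p' = q := by
      refine hq p' ⟨b, ?_⟩
      have e3 : el p = el p' + ((c * D : ℕ) : 𝓞 K) * b := by linear_combination hb
      rw [e3, ix_add, ix_mul, ix_nat, hel p']
    rw [e1, e2]
  refine ⟨Equiv.ofBijective f (Finite.injective_iff_bijective.mp hinj), fun p => ⟨- a p, ?_⟩⟩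
  have hD0 : (D : K) ≠ 0 := Nat.cast_ne_zero.mpr hD.ne'
  have e1 : (χ : K) * (el p : K) = (el (f p) : K) + ((c * D : ℕ) : K) * (a p : K) := by
    have e2 := congrArg (fun z : 𝓞 K => (z : K)) (hf p)
    simp only [ix_add, ix_mul, ix_nat] at e2
    exact e2
  show ixK D c (f p) = _
  rw [ixK, ixK, ← hel (f p), ← hel p, ix_neg]
  rw [Nat.cast_mul] at e1
  field_simp
  linear_combination -e1

theorem ixC_eq (D c : ℕ) (p : Fin (c * D) × Fin (c * D)) : ixC D c p = embK (ixK D c p) := by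
  rw [ixC, ixK, map_div₀, map_add, map_mul, map_natCast, map_natCast, map_natCast, embK_om]

end Pool.Agent.Lib.MP_1a91b9_ntT.Rq
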