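import Pool.Agent.Lib.MP_1a91b9_ntT.Rq.Su
import Pool.Agent.Lib.MP_1a91b9_ntT.Rq.Dt
import Pool.Agent.Lib.MP_1a91b9_ntT.S6.Co3

/-!
# JOB S10-VA: the values of the partial L-series are fixed by the automorphisms over `K`

Copy the proof of `co_val` (S6/Co3.lean) with `𝔪 = span {3}` and the following changes
(`n = m + 1`, `d = dt σ bb`, `d ≠ 0` by `dt_ne`, `Om ≠ 0` by `Om_ne_zero`).
* Instead of `hpathM` with `co3_M A (m+1)`: put `J v := τ (I v / (Om ^ n * d)) - I v / (Om ^ n * d)`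
  and apply `hS3 J ⊥`:
  - cocycle relation for `J`: `∑ (-1)^i J (..) = τ ((∑ (-1)^i I ..) / ..) - (∑ (-1)^i I ..) / .. = 0`
    (`map_sum`, `map_mul`, `map_pow`, `map_neg`, `map_one`, `map_div₀`),
  - `J v = 0` on dependent tuples (`I v = 0`, `map_zero`),
  - on `Unimod` tuples `w` (independent, in `S`): `fr_val` gives `D c` (odd), `co3_zz` gives `zz`,
    `hI3` gives `I w = dt σ w * ∑ ...` with `(c:ℂ)⁻¹ * E1 (ixC D c (x i) / c)`; divide by `Om ^ n`:
    each factor is `Om * ((c:ℂ)⁻¹ * ev (..))` (`ev = E1 / Om`, `Finset.prod_mul_distrib`,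
    `Finset.prod_const`, `Finset.card_univ`, `Fintype.card_fin`). `dt σ w = embK (bb.det w) * d`
    (`dt_rel`). So `I w / (Om ^ n * d) = embK (bb.det w) * (sum of sum_fixed)`, fixed by `τ`
    (`fx_K`, `sum_fixed`); so `J w = 0 ∈ ⊥`.
  Result: `J (path ε' s v₀) = 0` for all `s`.
* hence `g₂ 1 / (Om ^ n * d)` is fixed: `hval` (integer combination of the `I (path ..)`; `τ` fixes
  integers: `map_intCast`).
* `g₂ 1 = g 1 * facQ b 1 * facP b' 1` as in `co_val`; the two factors are fixed by `τ` and nonzero: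
  `co3_fac` (its proof shows `facQ b 1 = -conj (embK (b - 1))`, `facP b' 1 = embK (b' - 1) / embK b'`; use
  any `A` from `S3.exists_A`). `τ` fixes `embK x` (`fx_K`) and `conj (embK x)`: the numbers
  `x + conj x = embK (trace)` and .. simplest: `conj (embK x)` is `embK` of an element of `K`
  (`va_conj` below).
* so `τ (g 1 / (Om ^ n * d)) * (facQ facP) = g 1 / (Om ^ n * d) * (facQ facP)`, cancel.
`va_conj`: `x = p + q om` (`p q : ℚ`), `conj zt = zt ^ 2`, `y = p + q om ^ 2`; or: the map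
`conj ∘ embK : K →ₐ[ℚ] ℂ` has its image in the image of `embK` because `K / ℚ` is normal
(`AlgHom.fieldRange_of_normal` / `om_spec.embeddingsEquivPrimitiveRoots`: it is `embK ∘ s`, `s : K ≃ₐ[ℚ] K`
with `s om = om ^ 2`).
-/

set_option autoImplicit false

namespace Pool.Agent.Lib.MP_1a91b9_ntT.Rq

open NumberField

universe u

variable {F : Type u} [Field F] [NumberField F] [Algebra K F]

/-- The trace from `K` to the rational numbers. -/
theorem VA1_trace (x : K) : ((Algebra.trace ℚ K x : ℚ) : ℂ) =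
    embK x + (starRingEnd ℂ) (embK x) := by
  classical
  have h := trace_eq_sum_embeddings (K := ℚ) (L := K) ℂ (x := x)
  have hcard : Fintype.card (K →ₐ[ℚ] ℂ) = 2 := by
    rw [AlgHom.card, S3.finrank_K]
  have huniv : (Finset.univ : Finset (K →ₐ[ℚ] ℂ)) = {embK, S3.embK'} := by
    symm
    apply Finset.eq_univ_of_card
    rw [Finset.card_pair S3.embK_ne, hcard]
  rw [huniv, Finset.sum_pair S3.embK_ne] at h
  exact h

theorem va_conj (x : K) : ∃ y : K, (starRingEnd ℂ) (embK x) = embK y := by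
  refine ⟨algebraMap ℚ K (Algebra.trace ℚ K x) - x, ?_⟩
  have h : embK (algebraMap ℚ K (Algebra.trace ℚ K x)) = ((Algebra.trace ℚ K x : ℚ) : ℂ) :=
    embK.commutes _
  rw [map_sub, h, VA1_trace]
  ring

theorem val_fixed {m : ℕ} {τ : ℂ ≃+* ℂ} (hτ : Fix τ) (σ : Fin (m + 1) → (F →ₐ[K] ℂ))
    (hσ : Function.Bijective σ) (k : ℕ) (hk : Module.finrank K F = 2 ^ k)
    (𝔟 : Ideal (𝓞 F)) (hb : 𝔟 ≠ ⊥) (t : 𝓞 F) (ht : t ∈ 𝔟) (ht' : t ∉ Ideal.span {3} * 𝔟)
    (g : ℂ → ℂ) (hg : Differentiable ℂ g)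
    (hgs : ∀ X : Set F, IsRepsU (Ideal.span {3}) (cls 𝔟 (Ideal.span {3}) t) X →
      ∀ s : ℂ, 2 < s.re → HasSum (fun z : X => term s (z : F)) (g s))
    (bb : Module.Basis (Fin (m + 1)) K F) :
    τ (g 1 / (Om ^ (m + 1) * dt σ bb)) = g 1 / (Om ^ (m + 1) * dt σ bb) := by
  classical
  have hn : Module.finrank K F = m + 1 := nf_card σ hσ
  have hm : (Ideal.span {3} : Ideal (𝓞 F)) ≠ ⊥ := by
    intro h
    have h1 := Ideal.span_singleton_eq_bot.1 h
    have h2 : (((3 : ℕ) : 𝓞 F)) = 0 := by exact_mod_cast h1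
    exact absurd (Nat.cast_eq_zero.1 h2) (by norm_num)
  have hm2 : IsCoprime (Ideal.span {3} : Ideal (𝓞 F)) (Ideal.span {2}) := by
    rw [Ideal.isCoprime_span_singleton_iff]
    exact ⟨1, -1, by norm_num⟩
  have h3 : (Ideal.span {3} : Ideal (𝓞 F)) ≤ Ideal.span {3} := le_rfl
  obtain ⟨𝔪, h𝔪⟩ : ∃ 𝔪 : Ideal (𝓞 F), 𝔪 = Ideal.span {3} := ⟨_, rfl⟩
  obtain ⟨N, hNodd, hN⟩ := co3_odd (Ideal.span {3} : Ideal (𝓞 F)) hm2
  have hN3 : Odd (3 * N) := Odd.mul (by decide) hNodd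
  obtain ⟨β', b', hβ'⟩ := sm_exists (F := F) k hk (3 * N) hN3
  have hR' : ((3 * N : ℕ) : 𝓞 F) ∈ (Ideal.span {3} : Ideal (𝓞 F)) := by
    push_cast
    exact Ideal.mul_mem_left _ _ hN
  obtain ⟨b1, hbb, hbb'⟩ := dl_basis 𝔟 hb hn
  obtain ⟨v₀, hv₀⟩ := gen_exists 𝔟 hb hβ'
  obtain ⟨ε, hε, hεb⟩ := un_free σ hσ (Ideal.span {3}) hm h3
  obtain ⟨S, hS1, hS2, hS3⟩ := co_S 𝔟 hb β' b' hβ' b1 hbb v₀ hv₀ ε
  obtain ⟨R₀, hR₀, hadm⟩ := de_adm 𝔟 (Ideal.span {3}) hb hm t ht (Dvd.intro N rfl) β' b' hβ' S hS1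
  have hβ'2 : IsCoprime β' 2 := by
    have h := de_cop hβ' 2 (by norm_num) (by
      intro q hq hq2
      rcases (Nat.dvd_prime Nat.prime_two).1 hq2 with h | h
      · rw [h]; exact one_dvd _
      · rw [h] at hq; exact absurd hq (by decide))
    exact_mod_cast h
  obtain ⟨hN1, hN2⟩ := u2_odd β' hβ'2
  obtain ⟨N', hN'⟩ : ∃ N' : ℕ, N' = Ideal.absNorm (Ideal.span {β'}) := ⟨_, rfl⟩
  rw [← hN'] at hN1 hN2
  have hRodd : Odd (3 * R₀ * N * N') := ((Odd.mul (by decide) hR₀).mul hNodd).mul hN1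
  obtain ⟨β, b, hβ⟩ := sm_exists (F := F) k hk (3 * R₀ * N * N') hRodd
  have hR : ((3 * R₀ * N * N' : ℕ) : 𝓞 F) ∈ (Ideal.span {3} : Ideal (𝓞 F)) := by
    push_cast
    exact Ideal.mul_mem_right _ _ (Ideal.mul_mem_left _ _ hN)
  have hcop : IsCoprime β β' := by
    have h := de_cop hβ N' hN1.pos (fun q _ hq2 => hq2.mul_left _)
    exact h.of_isCoprime_of_dvd_right hN2
  have hβ0 : β ≠ 0 := by
    rintro rfl
    have h1 := de_cop hβ 2 (by norm_num) (by
      intro q hq hq2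
      rcases (Nat.dvd_prime Nat.prime_two).1 hq2 with h | h
      · rw [h]; exact one_dvd _
      · rw [h] at hq; exact absurd hq (by decide))
    rw [isCoprime_zero_left] at h1
    obtain ⟨h2, -⟩ := u2_odd (F := F) 0 (by rw [isCoprime_zero_left]; exact_mod_cast h1)
    rw [Ideal.span_singleton_zero, Ideal.absNorm_bot] at h2
    exact absurd h2 (by decide)
  have hβ'0 : β' ≠ 0 := by
    rintro rfl
    rw [hN', Ideal.span_singleton_zero, Ideal.absNorm_bot] at hN1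
    exact absurd hN1 (by decide)
  have hAdm := hadm (3 * R₀ * N * N') β b
    (((Dvd.intro_left 3 rfl).mul_right _).mul_right _) hβ
  obtain ⟨I, hI1, hI2, hI3, hI4⟩ := s2_main σ hσ (del 𝔟 (Ideal.span {3}) t β' β b) (S : Set F)
    S.finite_toSet hAdm
  obtain ⟨ε', hε'⟩ : ∃ ε' : Fin m → F, ε' = fun i => ((ε i : 𝓞 F) : F) := ⟨_, rfl⟩
  obtain ⟨g₂, hg₂, hg₂s, hg₂v⟩ := hI4 (fun i => ((ε i : 𝓞 F) : F)) (fun i => by
      have h1 : ((ε i : (𝓞 F)ˣ) : 𝓞 F) ≠ 0 := (ε i).ne_zero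
      exact RingOfIntegers.coe_ne_zero_iff.2 h1)
    (fun i => un_norm (Ideal.span {3}) h3 (ε i) (hε i))
    (fun i z => (co_inv 𝔟 (Ideal.span {3}) t ht β' β b (ε i) (hε i) z).1)
    (un_det σ hσ (Ideal.span {3}) hm h3 ε hε hεb)
  -- the value of `g₂` at `1`
  have hval := hg₂v v₀ (by
      have h1 := hS2 ∅
      rw [Finset.prod_empty, mul_one] at h1
      exact (hAdm.ne v₀ h1).1) (fun T => hS2 T)
  -- the invariance
  have hd0 : dt σ b1 ≠ 0 := dt_ne σ hσ b1
  have hOn : Om ^ (m + 1) ≠ 0 := pow_ne_zero _ Om_ne_zero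
  obtain ⟨C, hC⟩ : ∃ C : ℂ, C = Om ^ (m + 1) * dt σ b1 := ⟨_, rfl⟩
  have hC0 : C ≠ 0 := by rw [hC]; exact mul_ne_zero hOn hd0
  have hpath : ∀ s : Equiv.Perm (Fin m), τ (I (path (fun i => ((ε i : 𝓞 F) : F)) s v₀) / C) =
      I (path (fun i => ((ε i : 𝓞 F) : F)) s v₀) / C := by
    intro s
    have h := hS3 (fun v => τ (I v / C) - I v / C) ⊥ (fun w hw => ?_) (fun w hw hd => ?_) ?_ s
    · exact sub_eq_zero.1 ((AddSubgroup.mem_bot).1 h)
    · have h1 := hI1 w hw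
      have h2 : ∑ i : Fin (m + 2), (-1) ^ (i : ℕ) * (I (fun j => w (i.succAbove j)) / C) = 0 := by
        have h4 : ∀ i : Fin (m + 2), (-1 : ℂ) ^ (i : ℕ) * (I (fun j => w (i.succAbove j)) / C) =
            ((-1) ^ (i : ℕ) * I (fun j => w (i.succAbove j))) / C := fun i => by
          rw [mul_div_assoc]
        rw [Finset.sum_congr rfl fun i _ => h4 i, ← Finset.sum_div, h1, zero_div]
      have h5 := congrArg τ h2
      rw [map_sum, map_zero] at h5
      have h6 : ∀ i : Fin (m + 2), τ ((-1 : ℂ) ^ (i : ℕ) * (I (fun j => w (i.succAbove j)) / C)) =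
          (-1) ^ (i : ℕ) * τ (I (fun j => w (i.succAbove j)) / C) := fun i => by
        rw [map_mul, map_pow, map_neg, map_one]
      rw [Finset.sum_congr rfl fun i _ => h6 i] at h5
      have h7 : ∀ i : Fin (m + 2), (-1 : ℂ) ^ (i : ℕ) *
          (τ (I (fun j => w (i.succAbove j)) / C) - I (fun j => w (i.succAbove j)) / C) =
          (-1) ^ (i : ℕ) * τ (I (fun j => w (i.succAbove j)) / C) -
            (-1) ^ (i : ℕ) * (I (fun j => w (i.succAbove j)) / C) := fun i => mul_sub _ _ _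
      rw [Finset.sum_congr rfl fun i _ => h7 i, Finset.sum_sub_distrib, h5, h2, sub_zero]
    · change τ (I w / C) - I w / C = 0
      rw [hI2 w hw hd, zero_div, map_zero, sub_zero]
    · intro w hw hl hu
      rw [AddSubgroup.mem_bot]
      obtain ⟨D, c, hD, hc, h1, h2⟩ := fr_val 𝔟 (Ideal.span {3}) hb hm hm2 t ht β' β b' b hβ' hβ b1
        hbb hbb' w (fun i => hS1 _ (hw i)) hu
      obtain ⟨zz, hzz⟩ := co3_zz hn w hl
      have hsum := sum_fixed hτ 𝔟 hb t ht β' β hβ'0 hβ0 b w D c hD hc h2 zz hzz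
      have hIw := hI3 w hw hl D c hD.pos hc.pos h1 h2 zz hzz
      have hdw : (Matrix.of fun i j => σ j (w i)).det = embK (b1.det w) * dt σ b1 := dt_rel σ b1 w
      have hE : ∀ x : Fin (m + 1) → Fin (c * D) × Fin (c * D),
          ∏ i, (c : ℂ)⁻¹ * E1 (ixC D c (x i) / c) =
            Om ^ (m + 1) * ∏ i, (c : ℂ)⁻¹ * ev (ixC D c (x i) / c) := by
        intro x
        have h4 : ∀ i, (c : ℂ)⁻¹ * E1 (ixC D c (x i) / c) =
            Om * ((c : ℂ)⁻¹ * ev (ixC D c (x i) / c)) := fun i => by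
          rw [ev, mul_left_comm, mul_div_cancel₀ _ Om_ne_zero]
        rw [Finset.prod_congr rfl fun i _ => h4 i, Finset.prod_mul_distrib, Finset.prod_const,
          Finset.card_univ, Fintype.card_fin]
      obtain ⟨Sg, hSg⟩ : ∃ Sg : ℂ, Sg = ∑ x : Fin (m + 1) → Fin (c * D) × Fin (c * D),
        del 𝔟 (Ideal.span {3}) t β' β b (zz fun i => ixK D c (x i)) *
          ∏ i, (c : ℂ)⁻¹ * ev (ixC D c (x i) / c) := ⟨_, rfl⟩
      have hsum2 : ∑ x : Fin (m + 1) → Fin (c * D) × Fin (c * D),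
          del 𝔟 (Ideal.span {3}) t β' β b (zz fun i => ixK D c (x i)) *
            ∏ i, (c : ℂ)⁻¹ * E1 (ixC D c (x i) / c) = Om ^ (m + 1) * Sg := by
        rw [hSg, Finset.mul_sum]
        refine Finset.sum_congr rfl fun x _ => ?_
        rw [hE x]
        ring
      rw [← hSg] at hsum
      have hquot : I w / C = embK (b1.det w) * Sg := by
        rw [hIw, hsum2, hdw, hC]
        field_simp
      change τ (I w / C) - I w / C = 0
      rw [hquot, map_mul, fx_K hτ, hsum, sub_self]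
  have hg2 : τ (g₂ 1 / C) = g₂ 1 / C := by
    have h1 : g₂ 1 / C = ((SignType.sign (regM σ fun i => ((ε i : 𝓞 F) : F)).det : ℤ) : ℂ) *
        ∑ s : Equiv.Perm (Fin m), ((Equiv.Perm.sign s : ℤ) : ℂ) *
          (I (path (fun i => ((ε i : 𝓞 F) : F)) s v₀) / C) := by
      rw [hval, mul_div_assoc, Finset.sum_div]
      congr 1
      refine Finset.sum_congr rfl fun s _ => ?_
      rw [mul_div_assoc]
    rw [h1, map_mul, map_intCast, map_sum]
    congr 1
    refine Finset.sum_congr rfl fun s _ => ?_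
    rw [map_mul, map_intCast, hpath s]
  -- the functional equation of the smoothing
  obtain ⟨h0cls, hVcls⟩ := co_cls 𝔟 (Ideal.span {3}) t ht ht'
  obtain ⟨X, hX⟩ := co_exists (Ideal.span {3}) (cls 𝔟 (Ideal.span {3}) t) h0cls hVcls
  have hX' : IsRepsU (Ideal.span {3}) (Function.support (del 𝔟 (Ideal.span {3}) t β' β b))
      (X \ mulI 𝔟 β') := by
    rw [co_sup 𝔟 (Ideal.span {3}) t β' (⟨R₀ * N * N', by ring⟩) hβ]
    refine ⟨fun z hz => ⟨hX.1 hz.1, hz.2⟩, ?_⟩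
    rintro z ⟨hz1, hz2⟩
    obtain ⟨v, ⟨hv1, hv2⟩, hv3⟩ := hX.2 z hz1
    refine ⟨v, ⟨hv1, hv2, ?_⟩, ?_⟩
    · rw [co_mulI]
      exact hz2
    · rintro y ⟨hy1, hy2, -⟩
      exact hv3 y ⟨hy1, hy2⟩
  have hX'' : IsReps (fun i => ((ε i : 𝓞 F) : F))
      (Function.support (del 𝔟 (Ideal.span {3}) t β' β b)) (X \ mulI 𝔟 β') :=
    (co_reps (Ideal.span {3}) ε hε hεb _ _).1 hX'
  have heq : ∀ s : ℂ, 2 < s.re → g₂ s = g s * facQ b s * facP b' s := by
    intro s hs
    have h1 := hg₂s _ hX'' s hs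
    have h2 := co_smooth 𝔟 (Ideal.span {3}) t ht ht' h3 hR hR' hβ hβ' hcop X hX s (g s)
      (hgs X hX s hs)
    have h3' : ∀ Y : Set F, ∀ a : ℂ,
        HasSum (fun z : Y => del 𝔟 (Ideal.span {3}) t β' β b z * term s (z : F)) a ↔
        HasSum (Y.indicator fun z : F => del 𝔟 (Ideal.span {3}) t β' β b z * term s z) a :=
      fun Y a => hasSum_subtype_iff_indicator
        (f := fun z : F => del 𝔟 (Ideal.span {3}) t β' β b z * term s z)
    have h4 : HasSum (fun z : (X \ mulI 𝔟 β' : Set F) =>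
        del 𝔟 (Ideal.span {3}) t β' β b z * term s (z : F)) (g₂ s) := by
      have h5 : (fun z : (X \ mulI 𝔟 β' : Set F) =>
            del 𝔟 (Ideal.span {3}) t β' β b z * term s (z : F))
          = fun z : (X \ mulI 𝔟 β' : Set F) => del 𝔟 (Ideal.span {3}) t β' β b z *
            (starRingEnd ℂ) (NF (z : F)) * (‖NF (z : F)‖ : ℂ) ^ (-2 * s) := by
        funext z
        rw [term, mul_assoc]
      rw [h5]
      exact h1
    have h5 := (h3' _ _).1 h4
    have h6 := (h3' _ _).1 h2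
    have h7 : (X \ mulI 𝔟 β').indicator
          (fun z : F => del 𝔟 (Ideal.span {3}) t β' β b z * term s z)
        = X.indicator (fun z : F => del 𝔟 (Ideal.span {3}) t β' β b z * term s z) := by
      funext z
      by_cases hz : z ∈ X
      · by_cases hz2 : z ∈ mulI 𝔟 β'
        · have hd : del 𝔟 (Ideal.span {3}) t β' β b z = 0 := by
            unfold del
            rw [if_neg]
            exact fun h => h.2 hz2
          rw [Set.indicator_of_notMem (fun h => h.2 hz2), Set.indicator_of_mem hz, hd, zero_mul]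
        · rw [Set.indicator_of_mem (show z ∈ X \ mulI 𝔟 β' from ⟨hz, hz2⟩),
            Set.indicator_of_mem hz]
      · rw [Set.indicator_of_notMem (fun h => hz h.1), Set.indicator_of_notMem hz]
    rw [h7] at h5
    exact h5.unique h6
  have hbne : ∀ c : 𝓞 K, ¬ (2 : 𝓞 K) ∣ c → c ≠ 0 := by
    rintro c hc rfl
    exact hc (dvd_zero _)
  have hid : g₂ = fun s => g s * facQ b s * facP b' s := by
    have hd2 : Differentiable ℂ (fun s => g s * facQ b s * facP b' s) :=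
      (hg.mul (facQ_diff b (hbne b hβ.odd0))).mul (facP_diff b' (hbne b' hβ'.odd0))
    have ha1 : AnalyticOnNhd ℂ g₂ Set.univ := fun z _ => hg₂.analyticAt z
    have ha2 : AnalyticOnNhd ℂ (fun s => g s * facQ b s * facP b' s) Set.univ :=
      fun z _ => hd2.analyticAt z
    refine ha1.eq_of_eventuallyEq ha2 (z₀ := 3) ?_
    have hopen : IsOpen {s : ℂ | 2 < s.re} := isOpen_lt continuous_const Complex.continuous_re
    filter_upwards [hopen.mem_nhds (show (3 : ℂ) ∈ {s : ℂ | 2 < s.re} by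
      show (2 : ℝ) < (3 : ℂ).re
      norm_num)] with s hs
    exact heq s hs
  have hg1 : g₂ 1 = g 1 * facQ b 1 * facP b' 1 := congrFun hid 1
  -- the factors are in `K`
  obtain ⟨A, hA⟩ := S3.exists_A
  obtain ⟨hQ1, -, hP1, -⟩ := co3_fac A hA b b' hβ.odd0 hβ.odd1 hβ'.odd0 hβ'.odd1
  obtain ⟨-, -, hbA⟩ := kf_unitA A hA b hβ.odd0
  obtain ⟨-, -, hbA'⟩ := kf_unitA A hA b' hβ'.odd0
  have e1 : facQ b 1 = -(starRingEnd ℂ) (embK ((b - 1 : 𝓞 K) : K)) := by
    unfold facQ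
    rw [co3_cpow _ hbA]
    have h2 : (((‖embK (b : K)‖ ^ 2 : ℝ)) : ℂ) = embK (b : K) * (starRingEnd ℂ) (embK (b : K)) := by
      rw [Complex.mul_conj, Complex.normSq_eq_norm_sq]
    have h3 : (starRingEnd ℂ) (embK (b : K)) ≠ 0 := by
      simpa using hbA
    have h4 : embK ((b - 1 : 𝓞 K) : K) = embK (b : K) - 1 := by
      push_cast
      rw [map_sub, map_one]
    rw [h2, h4, map_sub, map_one]
    field_simp
    ring
  have e2 : facP b' 1 = embK ((b' - 1 : 𝓞 K) : K) * (embK (b' : K))⁻¹ := by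
    unfold facP
    rw [co3_cpow _ hbA']
    have h3 : (starRingEnd ℂ) (embK (b' : K)) ≠ 0 := by
      simpa using hbA'
    have h4 : embK ((b' - 1 : 𝓞 K) : K) = embK (b' : K) - 1 := by
      push_cast
      rw [map_sub, map_one]
    rw [h4]
    field_simp
  obtain ⟨y, hy⟩ := va_conj ((b - 1 : 𝓞 K) : K)
  have hτQ : τ (facQ b 1) = facQ b 1 := by
    rw [e1, hy, map_neg, fx_K hτ]
  have hτP : τ (facP b' 1) = facP b' 1 := by
    rw [e2, map_mul, map_inv₀, fx_K hτ, fx_K hτ]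
  have hkey : τ (g 1 / C) = g 1 / C := by
    have h1 : g 1 / C = g₂ 1 / C * (facQ b 1)⁻¹ * (facP b' 1)⁻¹ := by
      rw [hg1]
      field_simp
    rw [h1, map_mul, map_mul, map_inv₀, map_inv₀, hτQ, hτP, hg2]
  have hdb : dt σ bb = embK (b1.det bb) * dt σ b1 := dt_rel σ b1 bb
  have h1 : g 1 / (Om ^ (m + 1) * dt σ bb) = g 1 / C * (embK (b1.det bb))⁻¹ := by
    rw [hdb, hC]
    have h2 : embK (b1.det bb) ≠ 0 := by
      intro h0
      rw [h0, zero_mul] at hdb
      exact dt_ne σ hσ bb hdb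
    field_simp
  rw [h1, map_mul, map_inv₀, fx_K hτ, hkey]

end Pool.Agent.Lib.MP_1a91b9_ntT.Rq
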