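import Pool.Agent.Lib.MP_1a91b9_ntT.Rq.Act

/-!
# JOB S10-CH: the element `χ` can be chosen prime to any integer

`M = 2 ^ a * M₁` with `M₁` odd (`Nat.exists_eq_two_pow_mul_odd`). `L₁ := 3 * L * M₁` is odd and
divisible by 3; `χ₀` from `exists_act` for `L₁`. `χ := χ₀ + L₁ * (1 - χ₀)`.
* `3 ∣ χ - 1`: `χ - 1 = (χ₀ - 1) * (1 - L₁)`.
* coprime to `L₁`: `χ = χ₀ + L₁ * _` (`IsCoprime.add_mul_left_left` etc.), hence to `M₁`.
* coprime to `2`: `L₁ = 2 r + 1`, `χ = 1 + 2 * (r * (1 - χ₀))`. So coprime to `2 ^ a * M₁ = M`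
  (`IsCoprime.mul_right`, `IsCoprime.pow_right`).
* `Act τ L χ`: `a / L = (3 M₁ a) / L₁` (as complex numbers, `L₁ ≠ 0`), so
  `τ (ev (embK a / L)) = ev (embK χ₀ * embK (3 M₁ a) / L₁)`, and
  `embK χ * embK a / L = embK χ₀ * embK a / L + embK (3 M₁ (1 - χ₀) a)` as `L₁ / L = 3 M₁`; `ev` is
  periodic: `E1_period`.
-/

set_option autoImplicit false

namespace Pool.Agent.Lib.MP_1a91b9_ntT.Rq

open NumberField

theorem exists_chi {τ : ℂ ≃+* ℂ} (hτ : Fix τ) (L : ℕ) (hL : Odd L) (M : ℕ) (hM : 0 < M) :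
    ∃ χ : 𝓞 K, (3 : 𝓞 K) ∣ χ - 1 ∧ IsCoprime χ (M : 𝓞 K) ∧ Act τ L χ := by
  obtain ⟨a, M₁, hM₁, rfl⟩ := Nat.exists_eq_two_pow_mul_odd hM.ne'
  have hodd : Odd (3 * L * M₁) := ((by decide : Odd 3).mul hL).mul hM₁
  obtain ⟨χ₀, h3, hc, hact⟩ := exists_act hτ (3 * L * M₁) hodd
    ⟨L * M₁, by ring⟩
  have hL0 : (L : ℂ) ≠ 0 := Nat.cast_ne_zero.2 (by rintro rfl; exact absurd hL (by decide))
  have hM0 : (M₁ : ℂ) ≠ 0 := Nat.cast_ne_zero.2 (by rintro rfl; exact absurd hM₁ (by decide))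
  refine ⟨χ₀ + ((3 * L * M₁ : ℕ) : 𝓞 K) * (1 - χ₀), ?_, ?_, ?_⟩
  · obtain ⟨t, ht⟩ := h3
    refine ⟨t * (1 - ((3 * L * M₁ : ℕ) : 𝓞 K)), ?_⟩
    linear_combination (1 - ((3 * L * M₁ : ℕ) : 𝓞 K)) * ht
  · have h1 : IsCoprime (χ₀ + ((3 * L * M₁ : ℕ) : 𝓞 K) * (1 - χ₀)) (M₁ : 𝓞 K) := by
      obtain ⟨u, v, huv⟩ := hc
      have h2 : IsCoprime (χ₀ + ((3 * L * M₁ : ℕ) : 𝓞 K) * (1 - χ₀))
          ((3 * L * M₁ : ℕ) : 𝓞 K) := by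
        refine ⟨u, v - u * (1 - χ₀), ?_⟩
        linear_combination huv
      refine h2.of_isCoprime_of_dvd_right ⟨((3 * L : ℕ) : 𝓞 K), ?_⟩
      push_cast
      ring
    have h2 : IsCoprime (χ₀ + ((3 * L * M₁ : ℕ) : 𝓞 K) * (1 - χ₀)) (2 : 𝓞 K) := by
      obtain ⟨r, hr⟩ := hodd
      refine ⟨1, -((r : 𝓞 K) * (1 - χ₀)), ?_⟩
      rw [hr]
      push_cast
      ring
    have h3' := (h2.pow_right (n := a)).mul_right h1
    have h4 : (((2 ^ a * M₁ : ℕ)) : 𝓞 K) = (2 : 𝓞 K) ^ a * (M₁ : 𝓞 K) := by push_cast; ring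
    rw [h4]
    exact h3'
  · intro b
    have h5 := hact (((3 * M₁ : ℕ) : 𝓞 K) * b)
    have hb : embK ((((3 * M₁ : ℕ) : 𝓞 K) * b : 𝓞 K) : K) = 3 * (M₁ : ℂ) * embK (b : K) := by
      have : ((((3 * M₁ : ℕ) : 𝓞 K) * b : 𝓞 K) : K) = ((3 * M₁ : ℕ) : K) * (b : K) := by
        rw [de2_mul, de2_nat]
      rw [this, map_mul, map_natCast]
      push_cast
      ring
    have hL1 : (((3 * L * M₁ : ℕ)) : ℂ) = 3 * (L : ℂ) * (M₁ : ℂ) := by push_cast; ring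
    have e1 : embK ((((3 * M₁ : ℕ) : 𝓞 K) * b : 𝓞 K) : K) / ((3 * L * M₁ : ℕ) : ℂ) =
        embK (b : K) / L := by
      rw [hb, hL1]
      field_simp
    have e2 : embK (χ₀ : K) * embK ((((3 * M₁ : ℕ) : 𝓞 K) * b : 𝓞 K) : K) /
        ((3 * L * M₁ : ℕ) : ℂ) = embK (χ₀ : K) * embK (b : K) / L := by
      rw [mul_div_assoc, e1, mul_div_assoc]
    rw [e1, e2] at h5
    rw [h5]
    have hχ : embK ((χ₀ + ((3 * L * M₁ : ℕ) : 𝓞 K) * (1 - χ₀) : 𝓞 K) : K) =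
        embK (χ₀ : K) + 3 * (L : ℂ) * (M₁ : ℂ) * (1 - embK (χ₀ : K)) := by
      have h1 : (((1 : 𝓞 K)) : K) = 1 := rfl
      rw [de2_add, de2_mul, de2_nat, de2_sub, h1, map_add, map_mul, map_sub, map_one,
        map_natCast, hL1]
    have hc' : embK ((((3 * M₁ : ℕ) : 𝓞 K) * ((1 - χ₀) * b) : 𝓞 K) : K) =
        3 * (M₁ : ℂ) * ((1 - embK (χ₀ : K)) * embK (b : K)) := by
      have h1 : (((1 : 𝓞 K)) : K) = 1 := rfl
      rw [de2_mul, de2_nat, de2_mul, de2_sub, h1, map_mul, map_mul, map_sub, map_one,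
        map_natCast]
      push_cast
      ring
    have e3 : embK ((χ₀ + ((3 * L * M₁ : ℕ) : 𝓞 K) * (1 - χ₀) : 𝓞 K) : K) * embK (b : K) / L =
        embK (χ₀ : K) * embK (b : K) / L +
          embK ((((3 * M₁ : ℕ) : 𝓞 K) * ((1 - χ₀) * b) : 𝓞 K) : K) := by
      rw [hχ, hc']
      field_simp
    rw [e3]
    unfold ev
    rw [E1_period]

end Pool.Agent.Lib.MP_1a91b9_ntT.Rq
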