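import Pool.Agent.Lib.MP_1a91b9_ntT.Rq.Defs

/-!
# JOB S10-DE: the smoothed indicator function is invariant under `z ↦ χ z`, `χ ≡ 1 mod 3`

Let `M z = 3 β β' y` with `y ∈ 𝔟`, `3 ∣ M`, `a χ + b₁ M = 1` (`IsCoprime`), `J` any ideal of `𝓞 F`
with (as elements of `F`) `M z ∈ J`: if `χ z ∈ J` then `z = a (χ z) + b₁ (M z) ∈ J`; the converse is
clear. Apply this to `J = 𝔟 β` and `J = 𝔟 β'`, i.e. to the sets `mulI 𝔟 β`, `mulI 𝔟 β'`
(`M z = β * (3 β' y)`).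
`cls 𝔟 (3) t` (`z = w ∈ 𝓞 F`, `w - t ∈ span {3} * 𝔟`): if `z ∈ cls` then
`χ w - t = χ (w - t) + (χ - 1) t ∈ span {3} * 𝔟`. If `χ z = w' ∈ 𝓞 F`, `w' - t ∈ span {3} * 𝔟 ≤ 𝔟`:
`w' ∈ 𝔟`, so `z = a w' + b₁ (M z) =: w` is (the image of an element) in `𝔟`; and
`w - t = a χ (w - t) + b₁ M (w - t)`, `χ (w - t) = (w' - t) - (χ - 1) t ∈ span {3} * 𝔟`,
`M (w - t) = 3 (M/3) (w - t) ∈ span {3} * 𝔟`. So the three conditions in `del` are equivalent for `z`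
and `χ z` and `if_congr` applies. (`S6/De1.lean`: `de1_mem`, `S6/De2.lean`: `de2_mul`, `de2_cls`,
`de2_mulI` ... are useful.)
`de_fix`: `del` takes the values `0`, `1`, `1 - ‖embK b‖²`, and `‖embK b‖² = embK (b * bbar)`
with `bbar : K` (`(embK b) * conj (embK b)`; conj is given on `K` by `om ↦ om²`); simplest:
`‖embK b‖²` is the (natural) number `Ideal.absNorm (span {b})` (`de1_absK` in S6/De1.lean). So all
values of `del` are rational integers and every ring homomorphism fixes them.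
-/

set_option autoImplicit false

namespace Pool.Agent.Lib.MP_1a91b9_ntT.Rq

open NumberField

universe u

variable {F : Type u} [Field F] [NumberField F] [Algebra K F]

private theorem DE1_mulI (𝔟 : Ideal (𝓞 F)) (β₀ : 𝓞 F) (M : ℕ) (X A B : 𝓞 F)
    (hABF : (A : F) * (X : F) + (B : F) * (M : F) = 1) (z : F) (c : 𝓞 F) (hc : c ∈ 𝔟)
    (hz : (M : F) * z = (β₀ : F) * (c : F)) : (X : F) * z ∈ mulI 𝔟 β₀ ↔ z ∈ mulI 𝔟 β₀ := by
  constructor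
  · rintro ⟨w, hw, hwz⟩
    refine ⟨A * w + B * c, 𝔟.add_mem (𝔟.mul_mem_left _ hw) (𝔟.mul_mem_left _ hc), ?_⟩
    rw [de2_add, de2_mul, de2_mul]
    linear_combination (-z) * hABF + (A : F) * hwz + (B : F) * hz
  · rintro ⟨w, hw, hwz⟩
    refine ⟨X * w, 𝔟.mul_mem_left _ hw, ?_⟩
    rw [de2_mul, hwz]
    ring

private theorem DE1_ring1 {R : Type*} [CommRing R] (𝔟 : Ideal R) {t r m X A B M w' c w : R}
    (ht : t ∈ 𝔟) (hM : M = r * m) (hAB : A * X + B * M = 1) (hX1 : X - 1 ∈ Ideal.span {r})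
    (hw : w = A * w' + B * c) (hXw : X * w = w') (hw' : w' - t ∈ Ideal.span {r} * 𝔟)
    (hc : c ∈ 𝔟) : w - t ∈ Ideal.span {r} * 𝔟 := by
  have hwb : w' ∈ 𝔟 := by
    have h0 : Ideal.span {r} * 𝔟 ≤ 𝔟 := Ideal.mul_le_right
    have h1 : w' - t ∈ 𝔟 := h0 hw'
    have h2 := 𝔟.add_mem h1 ht
    rwa [sub_add_cancel] at h2
  have hwb' : w ∈ 𝔟 := by
    rw [hw]
    exact 𝔟.add_mem (𝔟.mul_mem_left _ hwb) (𝔟.mul_mem_left _ hc)
  have e1 : w - t = A * ((w' - t) - (X - 1) * t) + B * (r * (m * (w - t))) := by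
    rw [← hXw]
    rw [hM] at hAB
    linear_combination (-(w - t)) * hAB
  rw [e1]
  refine Ideal.add_mem _ (Ideal.mul_mem_left _ _ (Ideal.sub_mem _ hw' ?_))
    (Ideal.mul_mem_left _ _ ?_)
  · exact Ideal.mul_mem_mul hX1 ht
  · exact Ideal.mul_mem_mul (Ideal.mem_span_singleton_self _)
      (𝔟.mul_mem_left _ (𝔟.sub_mem hwb' ht))

private theorem DE1_ring2 {R : Type*} [CommRing R] (𝔟 : Ideal R) {t r X w : R}
    (ht : t ∈ 𝔟) (hX1 : X - 1 ∈ Ideal.span {r}) (hw : w - t ∈ Ideal.span {r} * 𝔟) :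
    X * w - t ∈ Ideal.span {r} * 𝔟 := by
  have e1 : X * w - t = X * (w - t) + (X - 1) * t := by ring
  rw [e1]
  exact Ideal.add_mem _ (Ideal.mul_mem_left _ _ hw) (Ideal.mul_mem_mul hX1 ht)

private theorem DE1_cls (𝔟 : Ideal (𝓞 F)) (t : 𝓞 F) (ht : t ∈ 𝔟) (M m : ℕ) (hm : M = 3 * m)
    (X A B : 𝓞 F) (hAB : A * X + B * (M : 𝓞 F) = 1)
    (hABF : (A : F) * (X : F) + (B : F) * (M : F) = 1) (hX1 : X - 1 ∈ Ideal.span {(3 : 𝓞 F)})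
    (z : F) (c : 𝓞 F) (hc : c ∈ 𝔟) (hz : (M : F) * z = (c : F)) :
    (X : F) * z ∈ cls 𝔟 (Ideal.span {3}) t ↔ z ∈ cls 𝔟 (Ideal.span {3}) t := by
  constructor
  · rintro ⟨w', hwz, hw'⟩
    have hzw : ((A * w' + B * c : 𝓞 F) : F) = z := by
      rw [de2_add, de2_mul, de2_mul]
      linear_combination z * hABF + (A : F) * hwz - (B : F) * hz
    have hXw : X * (A * w' + B * c) = w' := by
      apply de2_inj
      rw [de2_mul, hzw, hwz]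
    have e2 : (M : 𝓞 F) = 3 * (m : 𝓞 F) := by
      rw [hm]
      push_cast
      ring
    exact ⟨A * w' + B * c, hzw, DE1_ring1 𝔟 ht e2 hAB hX1 rfl hXw hw' hc⟩
  · rintro ⟨w, hwz, hw⟩
    exact ⟨X * w, by rw [de2_mul, hwz], DE1_ring2 𝔟 ht hX1 hw⟩

private theorem DE1_main (𝔟 : Ideal (𝓞 F)) (t β' β : 𝓞 F) (b : 𝓞 K) (ht : t ∈ 𝔟) (M m : ℕ)
    (hm : M = 3 * m) (X A B : 𝓞 F) (hAB : A * X + B * (M : 𝓞 F) = 1)
    (hABF : (A : F) * (X : F) + (B : F) * (M : F) = 1) (hX1 : X - 1 ∈ Ideal.span {(3 : 𝓞 F)})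
    (z : F) (y : 𝓞 F) (hy : y ∈ 𝔟)
    (hz : (M : F) * z = 3 * (β : F) * (β' : F) * (y : F)) :
    del 𝔟 (Ideal.span {3}) t β' β b ((X : F) * z) = del 𝔟 (Ideal.span {3}) t β' β b z := by
  have h3 : (((3 : ℕ) : 𝓞 F) : F) = ((3 : ℕ) : F) := de2_nat 3
  have h3' : ((3 : ℕ) : F) = 3 := by norm_num
  have e1 := DE1_mulI 𝔟 β M X A B hABF z (((3 : ℕ) : 𝓞 F) * (β' * y))
    (𝔟.mul_mem_left _ (𝔟.mul_mem_left _ hy)) (by
      rw [hz, de2_mul, de2_mul, h3, h3']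
      ring)
  have e2 := DE1_mulI 𝔟 β' M X A B hABF z (((3 : ℕ) : 𝓞 F) * (β * y))
    (𝔟.mul_mem_left _ (𝔟.mul_mem_left _ hy)) (by
      rw [hz, de2_mul, de2_mul, h3, h3']
      ring)
  have e3 := DE1_cls 𝔟 t ht M m hm X A B hAB hABF hX1 z (((3 : ℕ) : 𝓞 F) * (β * (β' * y)))
    (𝔟.mul_mem_left _ (𝔟.mul_mem_left _ (𝔟.mul_mem_left _ hy))) (by
      rw [hz, de2_mul, de2_mul, de2_mul, h3, h3']
      ring)
  unfold del
  rw [propext e1, propext e2, propext e3]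

theorem de_chi (𝔟 : Ideal (𝓞 F)) (t β' β : 𝓞 F) (b : 𝓞 K) (ht : t ∈ 𝔟) (M : ℕ) (hM3 : 3 ∣ M)
    (χ : 𝓞 K) (h3 : (3 : 𝓞 K) ∣ χ - 1) (hc : IsCoprime χ (M : 𝓞 K)) (z : F)
    (hz : ∃ y ∈ 𝔟, (M : F) * z = 3 * (β : F) * (β' : F) * (y : F)) :
    del 𝔟 (Ideal.span {3}) t β' β b (algebraMap K F (χ : K) * z) =
      del 𝔟 (Ideal.span {3}) t β' β b z := by
  obtain ⟨y, hy, hyz⟩ := hz
  obtain ⟨a, b₁, hab⟩ := hc
  obtain ⟨d, hd⟩ := h3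
  obtain ⟨m, hm⟩ := hM3
  obtain ⟨X, hX⟩ : ∃ X : 𝓞 F, X = algebraMap (𝓞 K) (𝓞 F) χ := ⟨_, rfl⟩
  obtain ⟨A, hA⟩ : ∃ A : 𝓞 F, A = algebraMap (𝓞 K) (𝓞 F) a := ⟨_, rfl⟩
  obtain ⟨B, hB⟩ : ∃ B : 𝓞 F, B = algebraMap (𝓞 K) (𝓞 F) b₁ := ⟨_, rfl⟩
  have hXF : algebraMap K F (χ : K) = (X : F) := by
    rw [hX]
    rfl
  have hAB : A * X + B * (M : 𝓞 F) = 1 := by
    have h1 := congrArg (algebraMap (𝓞 K) (𝓞 F)) hab
    rwa [map_add, map_mul, map_mul, map_natCast, map_one, ← hX, ← hA, ← hB] at h1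
  have hABF : (A : F) * (X : F) + (B : F) * (M : F) = 1 := by
    have h1 := congrArg (fun w : 𝓞 F => (w : F)) hAB
    simp only [de2_add, de2_mul, de2_nat] at h1
    rw [h1]
    rfl
  have hX1 : X - 1 ∈ Ideal.span {(3 : 𝓞 F)} := by
    rw [Ideal.mem_span_singleton]
    refine ⟨algebraMap (𝓞 K) (𝓞 F) d, ?_⟩
    have h1 := congrArg (algebraMap (𝓞 K) (𝓞 F)) hd
    rw [map_sub, map_mul, map_one, map_ofNat, ← hX] at h1
    exact h1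
  rw [hXF]
  exact DE1_main 𝔟 t β' β b ht M m hm X A B hAB hABF hX1 z y hy hyz

theorem de_fix (𝔟 𝔪 : Ideal (𝓞 F)) (t β' β : 𝓞 F) (b : 𝓞 K) (z : F) (τ : ℂ ≃+* ℂ) :
    τ (del 𝔟 𝔪 t β' β b z) = del 𝔟 𝔪 t β' β b z := by
  classical
  have h1 : (((‖embK (b : K)‖ ^ 2 : ℝ)) : ℂ) = ((Ideal.absNorm (Ideal.span {b}) : ℕ) : ℂ) := by
    rw [← de1_absK]
    exact Complex.ofReal_natCast _
  unfold del
  rw [h1]
  split_ifs
  · rw [mul_one, map_sub, map_one, map_natCast]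
  · rw [mul_zero, sub_zero, map_one]
  · rw [map_zero]

/-- Every finite set of elements has a common denominator for a nonzero ideal. -/
theorem de_den (𝔟 : Ideal (𝓞 F)) (hb : 𝔟 ≠ ⊥) (β β' : 𝓞 F) (hβ : β ≠ 0) (hβ' : β' ≠ 0)
    (Z : Finset F) : ∃ M : ℕ, 0 < M ∧ 3 ∣ M ∧
      ∀ z ∈ Z, ∃ y ∈ 𝔟, (M : F) * z = 3 * (β : F) * (β' : F) * (y : F) := by
  classical
  obtain ⟨N₀, hN₀, hN₁⟩ : ∃ N₀ : ℕ, 0 < N₀ ∧ ∀ z ∈ Z, ∃ y ∈ 𝔟, (N₀ : F) * z =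
      (β : F) * (β' : F) * (y : F) := by
    induction Z using Finset.induction_on with
    | empty => exact ⟨1, one_pos, fun z hz => absurd hz (Finset.notMem_empty z)⟩
    | insert w Z hw ih =>
      obtain ⟨N, hN, h⟩ := ih
      obtain ⟨N', hN', y', hy', hyw⟩ : ∃ N' : ℕ, 0 < N' ∧ ∃ y ∈ 𝔟, (N' : F) * w =
          (β : F) * (β' : F) * (y : F) := by
        by_cases hw0 : w = 0
        · refine ⟨1, one_pos, 0, 𝔟.zero_mem, ?_⟩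
          rw [hw0, de2_zero]
          ring
        · obtain ⟨N', hN', y, hy, _, h1⟩ := de_scale 𝔟 hb (β * β') (mul_ne_zero hβ hβ') w hw0
          exact ⟨N', hN', y, hy, by rw [h1, de2_mul]⟩
      refine ⟨N * N', Nat.mul_pos hN hN', fun z hz => ?_⟩
      rcases Finset.mem_insert.1 hz with rfl | hz
      · refine ⟨((N : ℕ) : 𝓞 F) * y', 𝔟.mul_mem_left _ hy', ?_⟩
        rw [de2_mul, de2_nat]
        push_cast
        linear_combination (N : F) * hyw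
      · obtain ⟨y, hy, h1⟩ := h z hz
        refine ⟨((N' : ℕ) : 𝓞 F) * y, 𝔟.mul_mem_left _ hy, ?_⟩
        rw [de2_mul, de2_nat]
        push_cast
        linear_combination (N' : F) * h1
  refine ⟨3 * N₀, by omega, ⟨N₀, rfl⟩, fun z hz => ?_⟩
  obtain ⟨y, hy, h1⟩ := hN₁ z hz
  refine ⟨y, hy, ?_⟩
  push_cast
  linear_combination 3 * h1

end Pool.Agent.Lib.MP_1a91b9_ntT.Rq
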