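import Pool.Agent.Lib.MP_1a91b9_ntT.P.Unit
import Pool.Agent.Lib.MP_1a91b9_ntT.P.Integral
import Pool.Agent.Lib.MP_1a91b9_ntT.S6.De2

/-!
# S10 (rationality of the L-quotient): definitions
-/

set_option autoImplicit false

namespace Pool.Agent.Lib.MP_1a91b9_ntT.Rq

open NumberField

noncomputable section

/-- The normalised function `E₁`. -/
def ev (z : ℂ) : ℂ := E1 z / Om

/-- `χ` describes the action of the automorphism `τ` on the values of `ev` at the `M`-torsion. -/
def Act (τ : ℂ ≃+* ℂ) (M : ℕ) (χ : 𝓞 K) : Prop :=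
  ∀ a : 𝓞 K, τ (ev (embK (a : K) / M)) = ev (embK (χ : K) * embK (a : K) / M)

/-- The automorphisms of `ℂ` which fix `K`. -/
def Fix (τ : ℂ ≃+* ℂ) : Prop := τ zt = zt

/-- The determinant of the conjugates of a family. -/
def dt {F : Type*} [Field F] [NumberField F] [Algebra K F] {m : ℕ}
    (σ : Fin (m + 1) → (F →ₐ[K] ℂ)) (w : Fin (m + 1) → F) : ℂ :=
  (Matrix.of fun i j => σ j (w i)).det

end

end Pool.Agent.Lib.MP_1a91b9_ntT.Rq
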