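import Pool.Agent.Lib.MP_1a91b9_ntT.Rq.Defs
import Pool.Agent.Lib.MP_1a91b9_ntT.Rq.Aut

/-!
# JOB S10-FX: the algebraic numbers fixed by all the automorphisms over `K`

`fx_K`: `fix (embK x)`: every element of `K` is a polynomial in `om` with rational coefficients
(`S3` has the bijection with `ℤ[zt]` for integers; simplest: `K` is generated by `om`: the two
`ℚ`-algebra maps `K → ℂ`, `x ↦ τ (embK x)` and `embK`, agree at `om` (`embK_om`, `Fix τ`), hence are
equal: `om_spec.embeddingsEquivPrimitiveRoots` is injective, or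
`IsCyclotomicExtension.algHom_eq_of_apply_eq`/`IsPrimitiveRoot.powerBasis.algHom_ext`).
`mem_K`: `Algebra K ℂ` is the instance `algKC` of Base (algebraMap K ℂ x = embK x). `z` is algebraic
over `K`. Suppose `z` is not in the image of `K`. Let `p = minpoly K z` (irreducible, separable in
characteristic zero, splits in `ℂ`, natDegree ≥ 2 by `minpoly.natDegree_eq_one_iff` or
`minpoly.mem_range_of_degree_eq_one`). It has a root `z' ≠ z` in `ℂ` (`card_rootSet` = natDegree ≥ 2:
`Polynomial.card_rootSet_eq_natDegree`). `R := IntermediateField.adjoin K {z}` (or `AdjoinRoot p`);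
`f : R →+* ℂ` the inclusion, `g : R →ₐ[K] ℂ` with `g z = z'`
(`IntermediateField.algHomAdjoinIntegralEquiv` or, with `R = AdjoinRoot p`, `f = AdjoinRoot.lift`
of `z`, `g` = lift of `z'`, field by `Fact (Irreducible p)`, which is easier). `R` is countable
(finite-dimensional over `ℚ` / algebraic over `ℚ`: `Algebra.IsAlgebraic.cardinalMk_le_max`, or a
quotient of the countable ring `K[X]`; `K` is countable: `NumberField` algebraic over `ℚ`).
`aut_ext f g`: `τ` with `τ ∘ f = g`; `τ zt = τ (f (algebraMap om)) = g (algebraMap om) = zt`;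
`τ z = z' ≠ z`, contradiction to `h`.
`real_K`: if `embK x = r` is real then `x` is rational: the coordinates: `x = p + q om` with
`p q : ℚ` (for instance from the finite basis, or: `K` has degree 2 over `ℚ` (`S4.u4_finrank`) and
`om` is not rational, so `1, om` is a basis), imaginary part `q * zt.im = 0`, `zt.im ≠ 0`
(`S3.zt_im_ne_zero`), so `q = 0`, `r = p`.
-/

set_option autoImplicit false

namespace Pool.Agent.Lib.MP_1a91b9_ntT.Rq

/-- The coordinates of an element of `K`. -/
theorem fx_coords (x : K) : ∃ p q : ℚ, x = (p : K) + (q : K) * om := by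
  obtain ⟨m, hm⟩ := IsIntegral.exists_multiple_integral_of_isLocalization
    (nonZeroDivisors ℤ) (Rₘ := ℚ) x (Algebra.IsIntegral.isIntegral x)
  obtain ⟨a, b, hab⟩ := S3.exists_coords ⟨(m : ℤ) • x, hm⟩
  have hm0 : ((m : ℤ) : K) ≠ 0 := Int.cast_ne_zero.mpr (nonZeroDivisors.ne_zero m.2)
  have h1 : ((m : ℤ) : K) * x = a + b * om := by
    rw [← zsmul_eq_mul]
    exact hab
  refine ⟨(a : ℚ) / ((m : ℤ) : ℚ), (b : ℚ) / ((m : ℤ) : ℚ), ?_⟩
  apply mul_left_cancel₀ hm0
  rw [h1]
  push_cast
  field_simp

theorem fx_emb (p q : ℚ) : embK ((p : K) + (q : K) * om) = (p : ℂ) + (q : ℂ) * zt := by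
  rw [map_add, map_mul, map_ratCast, map_ratCast, embK_om]

theorem fx_K {τ : ℂ ≃+* ℂ} (hτ : Fix τ) (x : K) : τ (embK x) = embK x := by
  obtain ⟨p, q, rfl⟩ := fx_coords x
  rw [fx_emb, map_add, map_mul, map_ratCast, map_ratCast, show τ zt = zt from hτ]

/-- `K` is countable. -/
theorem FX2_countable : Countable K := by
  have h1 : ∀ x : K, IsAlgebraic ℚ (embK x) := fun x =>
    (Algebra.IsAlgebraic.isAlgebraic (R := ℚ) x).algHom embK
  have h2 : Countable {x : ℂ // IsAlgebraic ℚ x} := (Algebraic.countable ℚ ℂ).to_subtype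
  have h3 : Function.Injective (fun x : K => (⟨embK x, h1 x⟩ : {x : ℂ // IsAlgebraic ℚ x})) := by
    intro x y hxy
    exact embK.injective (congrArg Subtype.val hxy)
  exact h3.countable

theorem mem_K {z : ℂ} (hz : IsAlgebraic ℚ z) (h : ∀ τ : ℂ ≃+* ℂ, Fix τ → τ z = z) :
    ∃ x : K, embK x = z := by
  classical
  by_contra hne
  have hzK : IsIntegral K z := (hz.tower_top K).isIntegral
  have hirr : Irreducible (minpoly K z) := minpoly.irreducible hzK
  have hdeg : 2 ≤ (minpoly K z).natDegree := by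
    have h1 : 0 < (minpoly K z).natDegree := minpoly.natDegree_pos hzK
    by_contra h2
    have h3 : (minpoly K z).natDegree = 1 := by omega
    have h4 : (minpoly K z).degree = 1 := by
      rw [Polynomial.degree_eq_natDegree hirr.ne_zero, h3]
      rfl
    obtain ⟨x, hx⟩ := minpoly.mem_range_of_degree_eq_one K z h4
    exact hne ⟨x, hx⟩
  have hsep : (minpoly K z).Separable := hirr.separable
  have hcard : Fintype.card ((minpoly K z).rootSet ℂ) = (minpoly K z).natDegree :=
    Polynomial.card_rootSet_eq_natDegree hsep (IsAlgClosed.splits _)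
  obtain ⟨z', hz', hne'⟩ : ∃ z' ∈ (minpoly K z).rootSet ℂ, z' ≠ z := by
    by_contra hc
    push Not at hc
    have h1 : Subsingleton ((minpoly K z).rootSet ℂ) :=
      ⟨fun a b => Subtype.ext ((hc a a.2).trans (hc b b.2).symm)⟩
    have h2 := Fintype.card_le_one_iff_subsingleton.2 h1
    omega
  have hf : Fact (Irreducible (minpoly K z)) := ⟨hirr⟩
  have e1 : Polynomial.eval₂ (algebraMap K ℂ) z (minpoly K z) = 0 := minpoly.aeval K z
  have e2 : Polynomial.eval₂ (algebraMap K ℂ) z' (minpoly K z) = 0 :=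
    (Polynomial.mem_rootSet.1 hz').2
  have hK : Countable K := FX2_countable
  have hR : Countable (AdjoinRoot (minpoly K z)) := by
    have h1 : Countable (Polynomial K) := by
      have h2 := Polynomial.cardinalMk_le_max (R := K)
      rw [← Cardinal.mk_le_aleph0_iff]
      exact h2.trans (max_le Cardinal.mk_le_aleph0 le_rfl)
    exact (AdjoinRoot.mk_surjective (g := minpoly K z)).countable
  obtain ⟨τ, hτ⟩ := aut_ext (AdjoinRoot.lift (algebraMap K ℂ) z e1)
    (AdjoinRoot.lift (algebraMap K ℂ) z' e2)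
  have h1 : Fix τ := by
    have h2 := hτ (AdjoinRoot.of (minpoly K z) om)
    rw [AdjoinRoot.lift_of, AdjoinRoot.lift_of, algebraMap_eq, embK_om] at h2
    exact h2
  have h3 : τ z = z' := by
    have h2 := hτ (AdjoinRoot.root (minpoly K z))
    rw [AdjoinRoot.lift_root, AdjoinRoot.lift_root] at h2
    exact h2
  exact hne' (h3.symm.trans (h τ h1))

theorem real_K {x : K} {r : ℝ} (h : embK x = (r : ℂ)) : ∃ q : ℚ, (q : ℝ) = r := by
  obtain ⟨p, q, rfl⟩ := fx_coords x
  rw [fx_emb] at h
  have him := congrArg Complex.im h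
  have hre := congrArg Complex.re h
  rw [Complex.add_im, Complex.mul_im, Complex.ratCast_im, Complex.ratCast_im, Complex.ratCast_re,
    Complex.ofReal_im, zero_add, zero_mul, add_zero] at him
  rw [Complex.add_re, Complex.mul_re, Complex.ratCast_im, Complex.ratCast_re, Complex.ratCast_re,
    Complex.ofReal_re, zero_mul, sub_zero] at hre
  have hq : (q : ℝ) = 0 := (mul_eq_zero.mp him).resolve_right S3.zt_im_ne_zero
  refine ⟨p, ?_⟩
  rw [← hre, hq, zero_mul, add_zero]

end Pool.Agent.Lib.MP_1a91b9_ntT.Rq
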