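import Pool.Agent.Lib.MP_1a91b9_ntT.Rq.Un
import Pool.Agent.Lib.MP_1a91b9_ntT.S7.Main

/-!
# JOB S10-LV: `L(ψbar_F, 1) = Om ^ n * d * κ` with `κ ∈ K`

`L` from `S7.unitProp F h`. `m := span {3}`; `unfold_K` for `m` (`m ≠ 0`, `m ≠ 1`: as in
`S4.exists_cont`), `A i` := the function of `s6_main` for `(b i, span {3}, t i)` (its value clause is
not needed; `S7.hasSum_coe`, `S7.repsU_of_isRep` transform `IsRep` into `IsRepsU`, see `S7.valueProp`).
As in `S4.exists_cont`, with `X := indC m`: for `2 < Re s`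
`L s = Lf (psibC F) s = ∑ i, indC m (J i) * embK (k i) * (absNorm (b i)) ^ s * A i s`
(the Euler factor in `Lf_indC` is `1` because `psibC F v = 0` for `v ∣ 3`), and `indC m (J i) = 1`
(`indC_of`). Both sides are entire, so equal at `s = 1` (`S4.entire_eq`):
`L 1 = ∑ i, embK (k i) * absNorm (b i) * A i 1`. By `val_fixed` (`k` with `finrank K F = 2 ^ k` from
`finrank_tower F h`; `hgs`: the property of `s6_main`) each `A i 1 / (Om ^ (m+1) * dt σ bb)` is fixed by all `τ`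
with `Fix τ`, so is `L 1 / (Om ^ (m+1) * dt σ bb)` (`fx_K`, `map_natCast`).
It is algebraic: `L 1 / Om ^ n` lies in all valuation rings above 2 (`S7.unitProp`, `of_val_one`), so
an odd multiple is integral (`Per.exists_odd_isIntegral`), and `dt σ bb ^ 2 = embK (discr)` is
algebraic (`dt_sq`), so `dt σ bb` is. `mem_K` gives `κ`. (`finrank K F = m + 1`: `nf_card σ hσ`.)
-/

set_option autoImplicit false

namespace Pool.Agent.Lib.MP_1a91b9_ntT.Rq

open IsDedekindDomain NumberField Pool.Agent.Lib.MP_1a91b9_ntT.S4 Pool.Agent.Lib.MP_1a91b9_nt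

universe u

variable {F : Type u} [Field F] [NumberField F] [Algebra K F]

theorem lval_K (h : TowerK F) {m : ℕ} (σ : Fin (m + 1) → (F →ₐ[K] ℂ)) (hσ : Function.Bijective σ)
    (bb : Module.Basis (Fin (m + 1)) K F) :
    ∃ (L : ℂ → ℂ) (κ : K), Differentiable ℂ L ∧ (∀ s : ℂ, 2 < s.re → L s = Lf (psibC F) s) ∧
      (∀ W : ValuationSubring ℂ, (2 : ℂ)⁻¹ ∉ W →
        W.valuation (L 1 / Om ^ (Module.finrank K F)) = 1) ∧
      L 1 = Om ^ (m + 1) * dt σ bb * embK κ := by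
  have h30 : Ideal.span {(3 : 𝓞 F)} ≠ 0 := by
    intro h
    have := Ideal.span_singleton_eq_bot.mp h
    norm_num at this
  have h31 : Ideal.span {(3 : 𝓞 F)} ≠ 1 := by
    intro h
    rw [Ideal.one_eq_top, Ideal.span_singleton_eq_top] at h
    exact three_not_unit h
  have h32 : IsCoprime (Ideal.span {(3 : 𝓞 F)}) (Ideal.span {(2 : 𝓞 F)}) := by
    rw [Ideal.isCoprime_span_singleton_iff]
    exact ⟨1, -1, by norm_num⟩
  obtain ⟨L, hL, hLs, hLW⟩ := S7.unitProp F h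
  obtain ⟨ι, hι, b, t, J, k, h1, h4⟩ := unfold_K (Ideal.span {(3 : 𝓞 F)}) h30 h31 le_rfl
  have hgood : ∀ i, ∃ g : ℂ → ℂ, Differentiable ℂ g ∧
      (∀ X : Set F, IsRepsU (Ideal.span {(3 : 𝓞 F)})
        (cls (b i) (Ideal.span {(3 : 𝓞 F)}) (t i)) X →
        ∀ s : ℂ, 2 < s.re → HasSum (fun z : X => term s (z : F)) (g s)) := by
    intro i
    obtain ⟨g, hg, hgs, -⟩ := s6_main h (b i) (Ideal.span {(3 : 𝓞 F)}) (h1 i).1 (h1 i).2.1 h30
      h32 le_rfl (t i) (h1 i).2.2.2.1 (h1 i).2.2.2.2.1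
    exact ⟨g, hg, hgs⟩
  choose A hA hAs using hgood
  have hNb : ∀ i, (Ideal.absNorm (b i) : ℂ) ≠ 0 := by
    intro i
    have := Ideal.absNorm_ne_zero_iff_mem_nonZeroDivisors.mpr
      (mem_nonZeroDivisors_iff_ne_zero.mpr (h1 i).1)
    exact_mod_cast this
  have hsum : ∀ s : ℂ, 2 < s.re → L s = ∑ i, indC (Ideal.span {(3 : 𝓞 F)}) (J i) *
      embK (k i) * (Ideal.absNorm (b i) : ℂ) ^ s * A i s := by
    intro s hs
    rw [← h4 A (fun i R hR s hs => S7.hasSum_coe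
      (hAs i _ (S7.repsU_of_isRep (h1 i).2.2.2.2.1 hR) s hs)) (indC _)
      (fun I hI => indC_of_not hI) (norm_indC_le _) (indC_ray _) s hs]
    have hfin : {v : HeightOneSpectrum (𝓞 F) | Ideal.span {(3 : 𝓞 F)} ≤ v.asIdeal}.Finite := by
      refine (Ideal.finite_factors h30).subset fun v hv => ?_
      exact Ideal.dvd_iff_le.mpr hv
    rw [Lf_indC _ hfin.toFinset (fun v => by rw [Set.Finite.mem_toFinset]; rfl) s hs]
    have e : ∏ v ∈ hfin.toFinset, (1 - psibC F v.asIdeal *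
        (Ideal.absNorm v.asIdeal : ℂ) ^ (-s)) = 1 := by
      refine Finset.prod_eq_one fun v hv => ?_
      rw [Set.Finite.mem_toFinset] at hv
      have hv' : Ideal.span {(3 : 𝓞 F)} ≤ v.asIdeal := hv
      rw [Ideal.span_singleton_le_iff_mem] at hv'
      rw [psibC_three v hv', zero_mul, sub_zero]
    rw [e, mul_one]
    exact hLs s hs
  have hdiff : Differentiable ℂ fun s : ℂ => ∑ i, indC (Ideal.span {(3 : 𝓞 F)}) (J i) *
      embK (k i) * (Ideal.absNorm (b i) : ℂ) ^ s * A i s := by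
    refine Differentiable.fun_sum fun i _ => ?_
    refine Differentiable.mul ?_ (hA i)
    refine Differentiable.mul (differentiable_const _) ?_
    exact (differentiable_id).const_cpow (Or.inl (hNb i))
  have heq := congrFun (entire_eq hL hdiff hsum) 1
  have hL1 : L 1 = ∑ i, embK (k i) * (Ideal.absNorm (b i) : ℂ) * A i 1 := by
    rw [heq]
    refine Finset.sum_congr rfl fun i _ => ?_
    rw [indC_of (h1 i).2.2.2.2.2, one_mul, Complex.cpow_one]
  have hOm : Om ≠ 0 := Om_ne_zero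
  have hdt : dt σ bb ≠ 0 := dt_ne σ hσ bb
  have hden : Om ^ (m + 1) * dt σ bb ≠ 0 := mul_ne_zero (pow_ne_zero _ hOm) hdt
  obtain ⟨kk, hkk⟩ := finrank_tower F h
  have hn : Module.finrank K F = m + 1 := nf_card σ hσ
  have hfix : ∀ τ : ℂ ≃+* ℂ, Fix τ →
      τ (L 1 / (Om ^ (m + 1) * dt σ bb)) = L 1 / (Om ^ (m + 1) * dt σ bb) := by
    intro τ hτ
    have e : L 1 / (Om ^ (m + 1) * dt σ bb) = ∑ i, embK (k i) * (Ideal.absNorm (b i) : ℂ) *
        (A i 1 / (Om ^ (m + 1) * dt σ bb)) := by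
      rw [hL1, Finset.sum_div]
      refine Finset.sum_congr rfl fun i _ => ?_
      rw [mul_div_assoc]
    rw [e, map_sum]
    refine Finset.sum_congr rfl fun i _ => ?_
    rw [map_mul, map_mul, fx_K hτ, map_natCast, val_fixed hτ σ hσ kk hkk (b i) (h1 i).1 (t i)
      (h1 i).2.2.2.1 (h1 i).2.2.2.2.1 (A i) (hA i) (hAs i) bb]
  have halg1 : IsAlgebraic ℚ (L 1 / Om ^ (m + 1)) := by
    obtain ⟨n, hn1, hn2⟩ := Per.exists_odd_isIntegral (x := L 1 / Om ^ (m + 1)) (by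
      intro W hW
      have h5 := hLW W hW
      rw [hn] at h5
      rw [← W.valuation_le_one_iff, h5])
    have hn0 : (n : ℂ) ≠ 0 := by
      intro h0
      have h6 : n = 0 := by exact_mod_cast h0
      rw [h6] at hn1
      exact absurd hn1 (by decide)
    have h7 : IsAlgebraic ℚ ((n : ℂ) * (L 1 / Om ^ (m + 1))) := by
      have h8 : IsAlgebraic ℤ ((n : ℂ) * (L 1 / Om ^ (m + 1))) := hn2.isAlgebraic
      exact h8.extendScalars (algebraMap ℤ ℚ).injective_int
    have h9 : IsAlgebraic ℚ ((n : ℂ)⁻¹) := by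
      have h10 : IsAlgebraic ℚ (algebraMap ℚ ℂ ((n : ℚ)⁻¹)) := isAlgebraic_algebraMap _
      simpa using h10
    have e : L 1 / Om ^ (m + 1) = (n : ℂ)⁻¹ * ((n : ℂ) * (L 1 / Om ^ (m + 1))) := by
      rw [← mul_assoc, inv_mul_cancel₀ hn0, one_mul]
    rw [e]
    exact h9.mul h7
  have halg2 : IsAlgebraic ℚ (dt σ bb) := by
    have h5 := dt_sq σ hσ bb
    have h6 : IsAlgebraic ℚ (embK (Algebra.discr K bb)) := by
      have h7 : IsAlgebraic ℚ (Algebra.discr K bb) := Algebra.IsAlgebraic.isAlgebraic _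
      exact h7.algHom embK
    rw [← h5] at h6
    exact h6.of_pow (by norm_num)
  have halg : IsAlgebraic ℚ (L 1 / (Om ^ (m + 1) * dt σ bb)) := by
    have e : L 1 / (Om ^ (m + 1) * dt σ bb) = L 1 / Om ^ (m + 1) * (dt σ bb)⁻¹ := by
      rw [div_mul_eq_div_div, div_eq_mul_inv (L 1 / Om ^ (m + 1))]
    rw [e]
    exact halg1.mul halg2.inv
  obtain ⟨κ, hκ⟩ := mem_K halg hfix
  refine ⟨L, κ, hL, hLs, hLW, ?_⟩
  rw [hκ, mul_div_cancel₀ _ hden]

end Pool.Agent.Lib.MP_1a91b9_ntT.Rq
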