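import Pool.Agent.Lib.MP_1a91b9_ntT.Rq.Chi
import Pool.Agent.Lib.MP_1a91b9_ntT.Rq.Ix
import Pool.Agent.Lib.MP_1a91b9_ntT.Rq.De
import Pool.Agent.Lib.MP_1a91b9_ntT.Rq.Fx

/-!
# JOB S10-SU: the sum of a frame is fixed by the automorphisms over `K`

`δ := del 𝔟 (span {3}) t β' β b`. `Z` := the finite set of all `zz (fun i => ixK D c (x i))`.
`M₀` from `de_den` for `Z`; `M := M₀ * (c * D)`, `L := c * D` (odd); `χ` from `exists_chi` for `L` and
`M`; `π` from `ix_perm`. Reindex the sum by `x ↦ (fun i => π (x i))`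
(`Equiv.piCongrRight (fun _ => π)` or `Equiv.arrowCongr`, `Equiv.sum_comp`), so
`S := ∑ x, δ (zz (ixK (x i))) ∏ c⁻¹ ev (ixC (x i) / c) = ∑ x, δ (zz (ixK (π (x i)))) ∏ c⁻¹ ev (ixC (π (x i)) / c)`.
* `ixK (π (x i)) = χ ixK (x i) + c a_i`. `zz (ixK (π (x i))) = χ zz (ixK (x i)) + μ` where `μ` is
  the difference; `Tr (w_i μ) = ixK (π (x i)) - χ ixK (x i) = c a_i` (`hzz`, trace is `K`-linear), so by
  `h2` `δ (zz (ixK (π x))) = δ (χ zz (ixK x)) = δ (zz (ixK x))` (`de_chi`; `M` is a multiple of `M₀`).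
* `ixC (π p) / c = embK (χ) * (ixC p) / c + embK a` (`ixC_eq`), so
  `ev (ixC (π p) / c) = ev (embK χ * embK (p.1 + p.2 om) / (c * D)) = τ (ev (ixC p / c))` (`Act`,
  `E1_period`; `ixC p / c = embK (p.1 + p.2 om) / (c * D)`, with `p.1 + p.2 om` in `𝓞 K`).
So `S = ∑ x, δ (..) ∏ c⁻¹ τ (ev ..) = τ S` (`de_fix`, `map_sum`, `map_mul`, `map_prod`, `map_inv₀`,
`map_natCast`).
-/

set_option autoImplicit false

namespace Pool.Agent.Lib.MP_1a91b9_ntT.Rq

open NumberField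

universe u

variable {F : Type u} [Field F] [NumberField F] [Algebra K F]

private theorem su_ev {τ : ℂ ≃+* ℂ} (D c : ℕ) (hD : 0 < D) (hc : 0 < c) (χ : 𝓞 K)
    (hact : Act τ (c * D) χ) (p q : Fin (c * D) × Fin (c * D)) (a : 𝓞 K)
    (h : ixK D c q = (χ : K) * ixK D c p + (c : K) * (a : K)) :
    ev (ixC D c q / c) = τ (ev (ixC D c p / c)) := by
  have hc0 : (c : ℂ) ≠ 0 := by exact_mod_cast hc.ne'
  have hD0 : (D : ℂ) ≠ 0 := by exact_mod_cast hD.ne'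
  set y : 𝓞 K := ((p.1 : ℕ) : 𝓞 K) + ((p.2 : ℕ) : 𝓞 K) * omO with hy
  have hyK : (y : K) = ((p.1 : ℕ) : K) + ((p.2 : ℕ) : K) * om := by
    rw [hy]
    simp only [map_add, map_mul, map_natCast]
    rfl
  have hyC : embK (y : K) = ((p.1 : ℕ) : ℂ) + ((p.2 : ℕ) : ℂ) * zt := by
    rw [hyK]
    simp only [map_add, map_mul, map_natCast, embK_om]
  have h1 : ixC D c p / c = embK (y : K) / ((c * D : ℕ) : ℂ) := by
    rw [hyC, ixC]
    push_cast
    field_simp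
  have h2 : ixC D c q / c = embK (χ : K) * embK (y : K) / ((c * D : ℕ) : ℂ) + embK (a : K) := by
    rw [ixC_eq, h]
    simp only [map_add, map_mul, map_natCast]
    rw [← ixC_eq]
    have h3 : ixC D c p = embK (y : K) / D := by rw [hyC, ixC]
    rw [h3]
    push_cast
    field_simp
  rw [h1, h2, hact y]
  unfold ev
  rw [E1_period]

theorem sum_fixed {m : ℕ} {τ : ℂ ≃+* ℂ} (hτ : Fix τ) (𝔟 : Ideal (𝓞 F)) (hb : 𝔟 ≠ ⊥)
    (t : 𝓞 F) (ht : t ∈ 𝔟) (β' β : 𝓞 F) (hβ' : β' ≠ 0) (hβ : β ≠ 0) (b : 𝓞 K)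
    (w : Fin (m + 1) → F) (D c : ℕ) (hD : Odd D) (hc : Odd c)
    (h2 : ∀ μ : F, (∀ i, ∃ a : 𝓞 K, Algebra.trace K F (w i * μ) = (c : K) * a) →
      ∀ z, del 𝔟 (Ideal.span {3}) t β' β b (z + μ) = del 𝔟 (Ideal.span {3}) t β' β b z)
    (zz : (Fin (m + 1) → K) → F) (hzz : ∀ a i, Algebra.trace K F (w i * zz a) = a i) :
    τ (∑ x : Fin (m + 1) → Fin (c * D) × Fin (c * D),
        del 𝔟 (Ideal.span {3}) t β' β b (zz fun i => ixK D c (x i)) *
          ∏ i, (c : ℂ)⁻¹ * ev (ixC D c (x i) / c)) =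
      ∑ x : Fin (m + 1) → Fin (c * D) × Fin (c * D),
        del 𝔟 (Ideal.span {3}) t β' β b (zz fun i => ixK D c (x i)) *
          ∏ i, (c : ℂ)⁻¹ * ev (ixC D c (x i) / c) := by
  classical
  have hcD : Odd (c * D) := hc.mul hD
  set zf : (Fin (m + 1) → Fin (c * D) × Fin (c * D)) → F :=
    fun x => zz fun i => ixK D c (x i) with hzf
  obtain ⟨M₀, hM0, hM3, hMZ⟩ := de_den 𝔟 hb β β' hβ hβ' (Finset.univ.image zf)
  have hMpos : 0 < M₀ * (c * D) := Nat.mul_pos hM0 hcD.pos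
  obtain ⟨χ, h3, hcop, hact⟩ := exists_chi hτ (c * D) hcD (M₀ * (c * D)) hMpos
  have hcop' : IsCoprime χ ((M₀ : 𝓞 K) * ((c * D : ℕ) : 𝓞 K)) := by
    have e : ((M₀ * (c * D) : ℕ) : 𝓞 K) = (M₀ : 𝓞 K) * ((c * D : ℕ) : 𝓞 K) := by
      push_cast
      ring
    rw [← e]
    exact hcop
  have hcopM : IsCoprime χ (M₀ : 𝓞 K) := IsCoprime.of_mul_right_left hcop'
  have hcopN : IsCoprime χ ((c * D : ℕ) : 𝓞 K) := IsCoprime.of_mul_right_right hcop'
  obtain ⟨π, hπ⟩ := ix_perm D c hD.pos hc.pos χ hcopN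
  have hdel : ∀ x : Fin (m + 1) → Fin (c * D) × Fin (c * D),
      del 𝔟 (Ideal.span {3}) t β' β b (zf fun i => π (x i)) =
        del 𝔟 (Ideal.span {3}) t β' β b (zf x) := by
    intro x
    set μ : F := zf (fun i => π (x i)) - algebraMap K F (χ : K) * zf x with hμ
    have e1 : zf (fun i => π (x i)) = algebraMap K F (χ : K) * zf x + μ := by
      rw [hμ]; ring
    have e2 : ∀ i, ∃ a : 𝓞 K, Algebra.trace K F (w i * μ) = (c : K) * a := by
      intro i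
      obtain ⟨a, ha⟩ := hπ (x i)
      refine ⟨a, ?_⟩
      have e3 : w i * μ = w i * zf (fun i => π (x i)) - (χ : K) • (w i * zf x) := by
        rw [hμ, Algebra.smul_def]; ring
      rw [e3, map_sub, map_smul, hzf]
      simp only [hzz]
      rw [ha, smul_eq_mul]
      ring
    rw [e1, h2 μ e2]
    exact de_chi 𝔟 t β' β b ht M₀ hM3 χ h3 hcopM (zf x)
      (hMZ (zf x) (Finset.mem_image_of_mem _ (Finset.mem_univ x)))
  have hev : ∀ p : Fin (c * D) × Fin (c * D),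
      ev (ixC D c (π p) / c) = τ (ev (ixC D c p / c)) := by
    intro p
    obtain ⟨a, ha⟩ := hπ p
    exact su_ev D c hD.pos hc.pos χ hact p (π p) a ha
  rw [map_sum]
  have hre := (Equiv.piCongrRight (fun _ : Fin (m + 1) => π)).sum_comp
    (fun x : Fin (m + 1) → Fin (c * D) × Fin (c * D) =>
      del 𝔟 (Ideal.span {3}) t β' β b (zz fun i => ixK D c (x i)) *
          ∏ i, (c : ℂ)⁻¹ * ev (ixC D c (x i) / c))
  rw [← hre]
  refine Finset.sum_congr rfl fun x _ => ?_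
  rw [map_mul, map_prod, de_fix]
  congr 1
  · exact (hdel x).symm
  · refine Finset.prod_congr rfl fun i _ => ?_
    rw [map_mul, map_inv₀, map_natCast]
    congr 1
    exact (hev (x i)).symm

end Pool.Agent.Lib.MP_1a91b9_ntT.Rq
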