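import Pool.Agent.Lib.MP_1a91b9_ntT.Rq.Va
import Pool.Agent.Lib.MP_1a91b9_ntT.S4.Family

/-!
# JOB S10-UN: the decomposition of the L-series, with coefficients in `K`

`unfold_K` is `unfold_L` (S4/UnfoldL.lean) with one more conclusion: `k i` is in the image of `embK`.
In the proof of `unfold_L` `k i = conj (embK (ε i)) / psibC F (b i)` with a unit `ε i` of `𝓞 K` and
`psibC F I = conj (psiC F I) = conj (embK (psi F I))` (S4/PsiDef.lean). So `k i` is the conjugate of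
an element of `K`, which is in `K` (`va_conj`, `map_div₀`). Copy the proof and add this.
-/

set_option autoImplicit false

namespace Pool.Agent.Lib.MP_1a91b9_ntT.Rq

open IsDedekindDomain NumberField Pool.Agent.Lib.MP_1a91b9_ntT.S4 Pool.Agent.Lib.MP_1a91b9_nt

universe u

variable {F : Type u} [Field F] [NumberField F] [Algebra K F]

theorem unfold_K (m : Ideal (𝓞 F)) (hm0 : m ≠ 0) (hm1 : m ≠ 1)
    (h3 : m ≤ Ideal.span {(3 : 𝓞 F)}) :
    ∃ (ι : Type u) (_ : Fintype ι) (b : ι → Ideal (𝓞 F)) (t : ι → 𝓞 F) (J : ι → Ideal (𝓞 F))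
      (k : ι → K),
      (∀ i, b i ≠ 0 ∧ IsCoprime (b i) (Ideal.span {2}) ∧ IsCoprime (b i) m ∧ t i ∈ b i ∧
        t i ∉ m * b i ∧ IsCoprime (J i) m) ∧
      ∀ A : ι → ℂ → ℂ, (∀ i R, IsRep m (b i) (t i) R → ∀ s : ℂ, 2 < s.re →
        HasSum (fun r : R => (starRingEnd ℂ) (Nm ((r : 𝓞 F) : F)) *
          ((‖Nm ((r : 𝓞 F) : F)‖ : ℝ) : ℂ) ^ (-2 * s)) (A i s)) →
      ∀ X : Ideal (𝓞 F) → ℂ, (∀ I, ¬ IsCoprime I m → X I = 0) → (∀ I, ‖X I‖ ≤ 1) →
        (∀ I J, RayEq m I J → X I = X J) → ∀ s : ℂ, 2 < s.re →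
        Lf (fun I => psibC F I * X I) s =
          ∑ i, X (J i) * embK (k i) * (Ideal.absNorm (b i) : ℂ) ^ s * A i s := by
  classical
  obtain ⟨ι, hι, b, t, J, hb, hunf⟩ := unfold_index m (Ideal.span {(2 : 𝓞 F)}) hm0 hm1 (by
    rw [Ne, Ideal.zero_eq_bot, Ideal.span_singleton_eq_bot]; norm_num)
  have h3m : Ideal.span {(3 : 𝓞 F)} ∣ m := Ideal.dvd_iff_le.mpr h3
  have hbm : ∀ i, IsCoprime (b i) m := fun i => (IsCoprime.of_mul_right_right (hb i).2.1)
  have hb2 : ∀ i, IsCoprime (b i) (Ideal.span {(2 : 𝓞 F)}) := fun i =>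
    IsCoprime.of_mul_right_left (hb i).2.1
  have hb3 : ∀ i, IsCoprime (b i) (Ideal.span {(3 : 𝓞 F)}) := fun i =>
    (hbm i).of_isCoprime_of_dvd_right h3m
  have ht3 : ∀ i, IsCoprime (Ideal.span {t i}) (Ideal.span {(3 : 𝓞 F)}) := by
    intro i
    rw [← (hb i).2.2.2.2.2.1]
    exact ((hb i).2.2.2.2.2.2.of_isCoprime_of_dvd_right h3m).mul_left (hb3 i)
  choose ε hε using fun i => psi_span (t i) (ht3 i)
  have hNb : ∀ i, (Ideal.absNorm (b i) : ℂ) ≠ 0 := by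
    intro i
    have := Ideal.absNorm_ne_zero_iff_mem_nonZeroDivisors.mpr
      (mem_nonZeroDivisors_iff_ne_zero.mpr (hb i).1)
    exact_mod_cast this
  have hpb : ∀ i, psibC F (b i) ≠ 0 := by
    intro i h
    apply hNb i
    rw [← psiC_mul_psibC (b i) (hb3 i), h, mul_zero]
  have hk : ∀ i, ∃ y : K, embK y =
      (starRingEnd ℂ) (embK ((ε i : 𝓞 K) : K)) / psibC F (b i) := by
    intro i
    obtain ⟨y1, hy1⟩ := va_conj ((ε i : 𝓞 K) : K)
    obtain ⟨y2, hy2⟩ := va_conj ((psi F (b i) : 𝓞 K) : K)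
    refine ⟨y1 / y2, ?_⟩
    rw [map_div₀, ← hy1, ← hy2]
    rfl
  choose kk hkk using hk
  refine ⟨ι, hι, b, t, J, kk, ?_, ?_⟩
  · intro i
    exact ⟨(hb i).1, hb2 i, hbm i, (hb i).2.2.1, (hb i).2.2.2.1, (hb i).2.2.2.2.2.2⟩
  intro A hA X hX0 hX1 hXr s hs
  choose R hR using fun i => exists_isRep m (b i) (t i)
  obtain ⟨e, hinj, he, hsurj⟩ := hunf R hR
  set f : Ideal (𝓞 F) → ℂ := fun I => psibC F I * X I * (Ideal.absNorm I : ℂ) ^ (-s) with hf
  have hs0 : s.re ≠ 0 := by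
    intro h
    rw [h] at hs
    linarith
  have hsum : Summable f := by
    refine Summable.of_norm ?_
    refine summable_ideals_mul F (fun I => psibC F I * X I) 1 (1 / 2) (fun I => ?_) s
      (by linarith) hs0
    rw [norm_mul, one_mul]
    calc ‖psibC F I‖ * ‖X I‖ ≤ (Ideal.absNorm I : ℝ) ^ (1 / 2 : ℝ) * 1 :=
          mul_le_mul (norm_psibC_le I) (hX1 I) (norm_nonneg _) (by positivity)
      _ = _ := mul_one _
  have hsupp : Function.support f ⊆ Set.range e := by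
    intro I hI
    by_cases hc : IsCoprime I m
    · exact hsurj I hc
    · exfalso
      apply hI
      simp only [hf]
      rw [hX0 I hc, mul_zero, zero_mul]
  have h1 : Lf (fun I => psibC F I * X I) s = ∑' x, f (e x) := (hinj.tsum_eq hsupp).symm
  rw [h1]
  have hsum' : Summable fun x => f (e x) := hsum.comp_injective hinj
  rw [hsum'.tsum_sigma, tsum_fintype]
  refine Finset.sum_congr rfl fun i _ => ?_
  rw [hkk i]
  set C : ℂ := X (J i) * ((starRingEnd ℂ) (embK ((ε i : 𝓞 K) : K)) / psibC F (b i)) *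
      (Ideal.absNorm (b i) : ℂ) ^ s with hC
  have hterm : ∀ r : R i, f (e ⟨i, r⟩) = C * ((starRingEnd ℂ) (Nm ((r : 𝓞 F) : F)) *
          ((‖Nm ((r : 𝓞 F) : F)‖ : ℝ) : ℂ) ^ (-2 * s)) := by
    intro r
    obtain ⟨g1, g2, g3⟩ := he ⟨i, r⟩
    have g2' : e ⟨i, r⟩ * b i = Ideal.span {(r : 𝓞 F)} := g2
    have hr0 : (r : 𝓞 F) ≠ 0 := by
      intro h
      rw [h, Ideal.span_singleton_zero, ← Ideal.zero_eq_bot] at g2'
      rcases mul_eq_zero.mp g2' with h' | h'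
      · exact ne_zero_of_coprime hm1 g1 h'
      · exact (hb i).1 h'
    have hrt : (3 : 𝓞 F) ∣ (r : 𝓞 F) - t i := by
      rw [← Ideal.mem_span_singleton]
      exact h3 (Ideal.mul_le_left ((hR i).mem r r.2))
    have hXJ : X (e ⟨i, r⟩) = X (J i) := hXr _ _ g3
    rw [hC, ← hXJ]
    exact unfold_term (e ⟨i, r⟩) (b i) r (ε i) (hb i).1 hr0 (hpb i) g2' (hε i r hrt) _ s
  have h2 := (hA i (R i) (hR i) s hs).mul_left C
  rw [tsum_congr hterm]
  exact h2.tsum_eq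


end Pool.Agent.Lib.MP_1a91b9_ntT.Rq
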